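import Pool.Agent.R308.NullDyn

/-!
The system is null: the number of the patterns on a finite set of coordinates is polynomially bounded.
-/

set_option autoImplicit false

open Filter Topology Finset

namespace Pool.Agent.R308.Null

/-- the part of the size which is determined by the residue class and by the nearest point -/
noncomputable def BB (K : ℕ) (t s0 s : ℕ) : ℝ := max (lo K ((t : ℤ) + s)) (hi K ((s : ℤ) - s0))

lemma BB_congr (K t t' s0 s : ℕ) (h : t % p K = t' % p K) : BB K t s0 s = BB K t' s0 s := by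
  unfold BB
  have h1 : ((t : ℤ) + s) = ((t' : ℤ) + s) + ((t : ℤ) - t') := by ring
  rw [h1, lo_period]
  have : (t' : ℤ) ≡ t [ZMOD (p K)] := by
    have := (Int.natCast_modEq_iff (a := t') (b := t) (n := p K)).2 h.symm
    exact this
  exact this.dvd

lemma approx (K : ℕ) (S : Finset ℕ) (t s0 : ℕ) (_hs0 : s0 ∈ S)
    (hmin : ∀ s ∈ S, hi K ((t : ℤ) + s0) ≤ hi K ((t : ℤ) + s)) (s : ℕ) (hs : s ∈ S) :
    |rho ((t : ℤ) + s) - max (BB K t s0 s) (hi K ((t : ℤ) + s0))| ≤ 1 / (K + 1) := by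
  set a := hi K ((t : ℤ) + s0) with ha
  set r := hi K ((t : ℤ) + s) with hr
  set b := hi K ((s : ℤ) - s0) with hb
  have har : a ≤ r := hmin s hs
  have h1 : r ≤ max a b + 1 / (K + 1) := by
    have := hi_add K ((t : ℤ) + s0) ((s : ℤ) - s0)
    have e : ((t : ℤ) + s0) + ((s : ℤ) - s0) = (t : ℤ) + s := by ring
    rw [e] at this
    exact this
  have h2 : b ≤ r + 1 / (K + 1) := by
    have := hi_add K ((t : ℤ) + s) (-((t : ℤ) + s0))
    have e : ((t : ℤ) + s) + -((t : ℤ) + s0) = (s : ℤ) - s0 := by ring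
    rw [e, hi_neg, ← ha, ← hr, max_eq_left har] at this
    exact this
  have h3 : |r - max b a| ≤ 1 / (K + 1) := by
    rw [abs_le]
    constructor
    · have : max b a ≤ r + 1 / (K + 1) := max_le h2 (by
        have : (0 : ℝ) ≤ 1 / (K + 1) := by positivity
        linarith)
      linarith
    · rw [max_comm b a]; linarith
  have h4 : rho ((t : ℤ) + s) = max r (lo K ((t : ℤ) + s)) := by rw [rho_eq K, max_comm]
  have h5 : max (BB K t s0 s) a = max (max b a) (lo K ((t : ℤ) + s)) := by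
    unfold BB
    rw [← hb, max_assoc, max_comm]
  rw [h4, h5]
  exact (abs_max_sub_max_le_abs _ _ _).trans h3

open Classical in
/-- the code of a pattern -/
noncomputable def code (K : ℕ) (η : ℝ) (S : Finset ℕ) (hS : S.Nonempty) (t : ℕ) : ℕ × ℕ × ℕ × ℕ :=
  let s0 := (S.exists_min_image (fun s : ℕ => hi K ((t : ℤ) + s)) hS).choose
  (t % p K, s0, (S.filter fun s => BB K t s0 s ≤ hi K ((t : ℤ) + s0)).card,
    ⌊(Real.cos (Real.pi * hi K ((t : ℤ) + s0)) + 1) / η⌋₊)

/-- the set of the codes -/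
noncomputable def codes (K : ℕ) (η : ℝ) (S : Finset ℕ) : Finset (ℕ × ℕ × ℕ × ℕ) :=
  range (p K) ×ˢ S ×ˢ range (S.card + 1) ×ˢ range (⌊2 / η⌋₊ + 1)

lemma code_mem (K : ℕ) (η : ℝ) (hη : 0 < η) (S : Finset ℕ) (hS : S.Nonempty) (t : ℕ) :
    code K η S hS t ∈ codes K η S := by
  have hsp := (S.exists_min_image (fun s : ℕ => hi K ((t : ℤ) + s)) hS).choose_spec
  unfold code codes
  simp only [mem_product, mem_range]
  refine ⟨Nat.mod_lt _ (p_pos K), hsp.1, ?_, ?_⟩
  · exact Nat.lt_succ_of_le (card_filter_le _ _)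
  · refine Nat.lt_succ_of_le (Nat.floor_le_floor ?_)
    exact div_le_div_of_nonneg_right (by linarith [Real.cos_le_one (Real.pi * hi K ((t : ℤ) +
      (S.exists_min_image (fun s : ℕ => hi K ((t : ℤ) + s)) hS).choose))]) hη.le

lemma floor_close {u v : ℝ} (hu : 0 ≤ u) (hv : 0 ≤ v) (h : ⌊u⌋₊ = ⌊v⌋₊) : |u - v| ≤ 1 := by
  have h1 := Nat.floor_le hu
  have h2 := Nat.lt_floor_add_one u
  have h3 := Nat.floor_le hv
  have h4 := Nat.lt_floor_add_one v
  rw [h] at h1 h2
  rw [abs_le]
  constructor <;> linarith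

lemma filter_iff {S : Finset ℕ} (b : ℕ → ℝ) {a a' : ℝ}
    (h : (S.filter fun s => b s ≤ a).card = (S.filter fun s => b s ≤ a').card) (s : ℕ) (hs : s ∈ S) :
    b s ≤ a ↔ b s ≤ a' := by
  wlog haa : a ≤ a' generalizing a a'
  · exact (this h.symm (le_of_not_ge haa)).symm
  constructor
  · intro h1; linarith
  · intro h1
    have hsub : (S.filter fun s => b s ≤ a) ⊆ (S.filter fun s => b s ≤ a') := by
      intro x hx
      rw [mem_filter] at hx ⊢
      exact ⟨hx.1, hx.2.trans haa⟩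
    have heq := eq_of_subset_of_card_le hsub h.ge
    have : s ∈ S.filter fun s => b s ≤ a' := mem_filter.2 ⟨hs, h1⟩
    rw [← heq, mem_filter] at this
    exact this.2

lemma code_close (K : ℕ) (η : ℝ) (hη : 0 < η) (S : Finset ℕ) (hS : S.Nonempty) (t t' : ℕ)
    (h : code K η S hS t = code K η S hS t') (s : ℕ) (hs : s ∈ S) :
    |((orb t s : Val) : ℝ) - (orb t' s : Val)| ≤ 8 / (K + 1) + η := by
  have hsp := (S.exists_min_image (fun s : ℕ => hi K ((t : ℤ) + s)) hS).choose_spec
  have hsp' := (S.exists_min_image (fun s : ℕ => hi K ((t' : ℤ) + s)) hS).choose_spec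
  unfold code at h
  simp only [Prod.mk.injEq] at h
  set s0 := (S.exists_min_image (fun s : ℕ => hi K ((t : ℤ) + s)) hS).choose with hs0
  set s0' := (S.exists_min_image (fun s : ℕ => hi K ((t' : ℤ) + s)) hS).choose with hs0'
  obtain ⟨h1, h2, h3, h4⟩ := h
  rw [← h2] at hsp' h3 h4
  set a := hi K ((t : ℤ) + s0) with ha
  set a' := hi K ((t' : ℤ) + s0) with ha'
  have hB : ∀ s, BB K t' s0 s = BB K t s0 s := fun s => BB_congr K t' t s0 s h1.symm
  simp only [hB] at h3
  have hiff := filter_iff (fun s => BB K t s0 s) h3 s hs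
  have hc : |Real.cos (Real.pi * max (BB K t s0 s) a) - Real.cos (Real.pi * max (BB K t s0 s) a')|
      ≤ η := by
    by_cases hb : BB K t s0 s ≤ a
    · have hb' : BB K t s0 s ≤ a' := hiff.1 hb
      rw [max_eq_right hb, max_eq_right hb']
      have hu : 0 ≤ (Real.cos (Real.pi * a) + 1) / η :=
        div_nonneg (by linarith [Real.neg_one_le_cos (Real.pi * a)]) hη.le
      have hv : 0 ≤ (Real.cos (Real.pi * a') + 1) / η :=
        div_nonneg (by linarith [Real.neg_one_le_cos (Real.pi * a')]) hη.le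
      have := floor_close hu hv h4
      rw [← sub_div, abs_div, abs_of_pos hη, div_le_one hη] at this
      have e : (Real.cos (Real.pi * a) + 1) - (Real.cos (Real.pi * a') + 1) =
          Real.cos (Real.pi * a) - Real.cos (Real.pi * a') := by ring
      rwa [e] at this
    · have hb' : ¬ BB K t s0 s ≤ a' := fun h => hb (hiff.2 h)
      rw [max_eq_left (le_of_not_ge hb), max_eq_left (le_of_not_ge hb')]
      simpa using hη.le
  have e1 := approx K S t s0 hsp.1 hsp.2 s hs
  have e2 := approx K S t' s0 hsp'.1 hsp'.2 s hs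
  rw [hB s] at e2
  rw [orb_apply, orb_apply]
  rw [← ha] at e1
  rw [← ha'] at e2
  have f1 := (abs_cos_pi (rho ((t : ℤ) + s)) (max (BB K t s0 s) a)).trans
    (mul_le_mul_of_nonneg_left e1 (by norm_num))
  have f2 := (abs_cos_pi (rho ((t' : ℤ) + s)) (max (BB K t s0 s) a')).trans
    (mul_le_mul_of_nonneg_left e2 (by norm_num))
  have e3 : (8 : ℝ) / (K + 1) = 4 * (1 / (K + 1)) + 4 * (1 / (K + 1)) := by ring
  rw [e3]
  clear e1 e2
  rw [abs_le] at *
  constructor <;> linarith [f1.1, f1.2, f2.1, f2.2, hc.1, hc.2]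

lemma exists_close {y : Amb} (hy : y ∈ XX) (S : Finset ℕ) {η : ℝ} (hη : 0 < η) :
    ∃ t, ∀ s ∈ S, |((y s : Val) : ℝ) - (orb t s : Val)| ≤ η := by
  have hO : IsOpen (⋂ s ∈ S, (fun z : Amb => z s) ⁻¹' Metric.ball (y s) η) :=
    isOpen_biInter_finset fun s _ => Metric.isOpen_ball.preimage (continuous_apply s)
  obtain ⟨z, hz, t, rfl⟩ := mem_closure_iff.1 hy _ hO (by
    simp only [Set.mem_iInter, Set.mem_preimage]
    exact fun s _ => Metric.mem_ball_self hη)
  refine ⟨t, fun s hs => ?_⟩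
  simp only [Set.mem_iInter, Set.mem_preimage, Metric.mem_ball] at hz
  have := hz s hs
  rw [Subtype.dist_eq, Real.dist_eq, abs_sub_comm] at this
  exact this.le

lemma exp_bound (C δ : ℝ) (hC : 0 ≤ C) (hδ : 0 < δ) :
    ∀ᶠ n : ℕ in atTop, C * (n : ℝ) ^ 2 ≤ Real.exp (δ * n) := by
  obtain ⟨N, hN⟩ := exists_nat_ge (6 * C / δ ^ 3)
  filter_upwards [eventually_ge_atTop N] with n hn
  have h1 := Real.pow_div_factorial_le_exp (δ * n) (by positivity) 3
  refine le_trans ?_ h1
  have h2 : 6 * C / δ ^ 3 ≤ n := hN.trans (by exact_mod_cast hn)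
  rw [div_le_iff₀ (by positivity)] at h2
  have h3 : ((3 : ℕ).factorial : ℝ) = 6 := by norm_num [Nat.factorial]
  rw [h3, le_div_iff₀ (by norm_num), mul_pow]
  have h4 : (0 : ℝ) ≤ (n : ℝ) ^ 2 := by positivity
  nlinarith [mul_le_mul_of_nonneg_right h2 h4]

lemma T_null : ∀ a : ℕ → ℕ, StrictMono a → ∀ ε : ℝ, 0 < ε → ∀ δ : ℝ, 0 < δ →
    ∀ᶠ n in atTop, ∀ F : Finset XX,
      (∀ x ∈ F, ∀ y ∈ F, x ≠ y → ∃ i < n, ε ≤ dist (T^[a i] x) (T^[a i] y)) →
      (F.card : ℝ) ≤ Real.exp (δ * n) := by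
  intro a _ ε hε δ hδ
  obtain ⟨L, η₀, hη₀, hL, hd⟩ := dist_lt ε hε
  obtain ⟨K, hK⟩ := exists_nat_ge (32 / η₀)
  set η := η₀ / 4 with hη
  have hη0 : 0 < η := by positivity
  set G := ⌊2 / η⌋₊ + 1 with hG
  filter_upwards [exp_bound ((p K * L * (L + 1) * G : ℕ) : ℝ) δ (by positivity) hδ,
    eventually_ge_atTop 1] with n hn hn1
  intro F hF
  set S : Finset ℕ := (range n ×ˢ range L).image fun q => a q.1 + q.2 with hSdef
  have hSc : S.card ≤ n * L := by
    refine card_image_le.trans ?_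
    rw [card_product, card_range, card_range]
  have hS : S.Nonempty := by
    refine ⟨a 0 + 0, mem_image.2 ⟨(0, 0), ?_, rfl⟩⟩
    simp only [mem_product, mem_range]
    omega
  have hmemS : ∀ i < n, ∀ l < L, a i + l ∈ S := fun i hi l hl =>
    mem_image.2 ⟨(i, l), by simp only [mem_product, mem_range]; exact ⟨hi, hl⟩, rfl⟩
  choose! τ hτ using fun (y : XX) => exists_close y.2 S hη0
  have hcard : F.card ≤ (codes K η S).card := by
    refine card_le_card_of_injOn (fun y => code K η S hS (τ y)) (fun y _ => code_mem K η hη0 S hS _)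
      ?_
    intro y hy z hz hyz
    by_contra hne
    obtain ⟨i, hi, hdist⟩ := hF y hy z hz hne
    have hclose : ∀ s ∈ S, |((y.1 s : Val) : ℝ) - (z.1 s : Val)| ≤ η₀ := by
      intro s hs
      have c1 := hτ y s hs
      have c2 := hτ z s hs
      have c3 := code_close K η hη0 S hS _ _ hyz s hs
      have c4 : (8 : ℝ) / (K + 1) ≤ η := by
        rw [div_le_iff₀ (by positivity)]
        have : 32 / η₀ * η₀ = 32 := by field_simp
        have h5 : 32 ≤ (K : ℝ) * η₀ := by
          rw [← this]; exact mul_le_mul_of_nonneg_right hK hη₀.le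
        rw [hη]
        nlinarith
      have c5 : η₀ = 4 * η := by rw [hη]; ring
      rw [abs_le] at *
      constructor <;> linarith [c1.1, c1.2, c2.1, c2.2, c3.1, c3.2]
    have : dist (T^[a i] y) (T^[a i] z) < ε := by
      rw [Subtype.dist_eq, T_iter, T_iter]
      refine hd _ _ fun l hl => ?_
      rw [shift_iter, shift_iter, add_comm]
      exact hclose _ (hmemS i hi l hl)
    linarith
  have hcc : (codes K η S).card ≤ p K * L * (L + 1) * G * n ^ 2 := by
    unfold codes
    rw [card_product, card_product, card_product, card_range, card_range, card_range, ← hG]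
    calc p K * (S.card * ((S.card + 1) * G)) ≤ p K * ((n * L) * ((n * L + n) * G)) := by gcongr
      _ = p K * L * (L + 1) * G * n ^ 2 := by ring
  calc (F.card : ℝ) ≤ ((p K * L * (L + 1) * G * n ^ 2 : ℕ) : ℝ) := by
        exact_mod_cast hcard.trans hcc
    _ = ((p K * L * (L + 1) * G : ℕ) : ℝ) * (n : ℝ) ^ 2 := by push_cast; ring
    _ ≤ _ := hn

end Pool.Agent.R308.Null
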