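import Pool.Agent.R308.NullRho

/-!
The orbit closure of the sequence `cos (π rho n)`: a transitive null system with two fixed points.
-/

set_option autoImplicit false

open Filter Topology Finset

namespace Pool.Agent.R308.Null

/-- the values -/
abbrev Val := Set.Icc (-1 : ℝ) 1

/-- the sequences of values -/
def Amb := ℕ → Val

noncomputable instance : MetricSpace Amb := PiCountable.metricSpace (F := fun _ : ℕ => Val)

instance : CompactSpace Amb := (inferInstance : CompactSpace (ℕ → Val))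

lemma dist_def (y z : Amb) :
    dist y z = ∑' i : ℕ, min ((2 : ℝ)⁻¹ ^ i) (dist (y i) (z i)) :=
  PiCountable.dist_eq_tsum (F := fun _ : ℕ => Val) y z

lemma dist_lt (ε : ℝ) (hε : 0 < ε) : ∃ L : ℕ, ∃ η : ℝ, 0 < η ∧ 0 < L ∧
    ∀ y z : Amb, (∀ i < L, |((y i : Val) : ℝ) - (z i : Val)| ≤ η) → dist y z < ε := by
  obtain ⟨L, hL⟩ := exists_pow_lt_of_lt_one (show (0 : ℝ) < ε / 4 by positivity)
    (show ((2 : ℝ)⁻¹) < 1 by norm_num)
  refine ⟨L + 1, ε / (4 * (L + 1)), by positivity, by omega, fun y z h => ?_⟩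
  rw [dist_def]
  have hs : Summable fun i : ℕ => min ((2 : ℝ)⁻¹ ^ i) (dist (y i) (z i)) := by
    refine Summable.of_nonneg_of_le (fun i => ?_) (fun i => min_le_left _ _)
      (summable_geometric_of_lt_one (by norm_num) (by norm_num : (2 : ℝ)⁻¹ < 1))
    exact le_min (by positivity) dist_nonneg
  rw [← hs.sum_add_tsum_nat_add (L + 1)]
  have h1 : ∑ i ∈ range (L + 1), min ((2 : ℝ)⁻¹ ^ i) (dist (y i) (z i)) ≤ ε / 4 := by
    calc ∑ i ∈ range (L + 1), min ((2 : ℝ)⁻¹ ^ i) (dist (y i) (z i))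
        ≤ ∑ i ∈ range (L + 1), ε / (4 * (L + 1)) := by
          refine sum_le_sum fun i hi => (min_le_right _ _).trans ?_
          have := h i (mem_range.1 hi)
          rw [Subtype.dist_eq, Real.dist_eq]
          exact this
      _ = ε / 4 := by
          rw [sum_const, card_range, nsmul_eq_mul]
          push_cast
          field_simp
  have h2 : ∑' i : ℕ, min ((2 : ℝ)⁻¹ ^ (i + (L + 1))) (dist (y (i + (L + 1))) (z (i + (L + 1))))
      ≤ ε / 4 := by
    have hg : Summable fun i : ℕ => (2 : ℝ)⁻¹ ^ (i + (L + 1)) :=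
      (summable_nat_add_iff (L + 1)).2
        (summable_geometric_of_lt_one (by norm_num) (by norm_num : (2 : ℝ)⁻¹ < 1))
    calc _ ≤ ∑' i : ℕ, (2 : ℝ)⁻¹ ^ (i + (L + 1)) :=
          Summable.tsum_le_tsum (fun i => min_le_left _ _) ((summable_nat_add_iff (L + 1)).2 hs) hg
      _ = (2 : ℝ)⁻¹ ^ L := by
          simp_rw [pow_add]
          rw [tsum_mul_right, tsum_geometric_of_lt_one (by norm_num) (by norm_num)]
          norm_num
          ring
      _ ≤ ε / 4 := hL.le
  linarith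

/-- the shift -/
def shift (y : Amb) : Amb := fun n => y (n + 1)

lemma continuous_shift : Continuous shift :=
  continuous_pi fun n => continuous_apply (n + 1)

lemma shift_iter (i : ℕ) (y : Amb) (n : ℕ) : (shift^[i] y) n = y (n + i) := by
  induction i generalizing y n with
  | zero => rfl
  | succ i ih =>
    rw [Function.iterate_succ_apply, ih]
    show y (n + i + 1) = y (n + (i + 1))
    rfl

/-- the orbit of the basic sequence -/
noncomputable def orb (t : ℕ) : Amb := fun n =>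
  ⟨Real.cos (Real.pi * rho ((t : ℤ) + n)), Real.neg_one_le_cos _, Real.cos_le_one _⟩

lemma orb_apply (t n : ℕ) : ((orb t n : Val) : ℝ) = Real.cos (Real.pi * rho ((t : ℤ) + n)) := rfl

lemma shift_orb (i t : ℕ) : shift^[i] (orb t) = orb (t + i) := by
  funext n
  rw [shift_iter]
  apply Subtype.ext
  rw [orb_apply, orb_apply]
  push_cast
  ring_nf

/-- the orbit closure -/
def XX : Set Amb := closure (Set.range orb)

lemma shift_mem {y : Amb} (h : y ∈ XX) : shift y ∈ XX := by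
  have : Set.MapsTo shift (Set.range orb) (Set.range orb) := by
    rintro _ ⟨t, rfl⟩
    exact ⟨t + 1, (shift_orb 1 t).symm⟩
  exact this.closure continuous_shift h

lemma orb_mem (t : ℕ) : orb t ∈ XX := subset_closure ⟨t, rfl⟩

/-- the system -/
def T (y : XX) : XX := ⟨shift y.1, shift_mem y.2⟩

lemma T_iter (i : ℕ) (y : XX) : (T^[i] y).1 = shift^[i] y.1 := by
  induction i generalizing y with
  | zero => rfl
  | succ i ih => rw [Function.iterate_succ_apply, ih, Function.iterate_succ_apply]; rfl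

lemma T_cont : Continuous T :=
  Continuous.subtype_mk (continuous_shift.comp continuous_subtype_val) _

instance : CompactSpace XX := isCompact_iff_compactSpace.1 isClosed_closure.isCompact

lemma abs_cos_pi (a b : ℝ) : |Real.cos (Real.pi * a) - Real.cos (Real.pi * b)| ≤ 4 * |a - b| := by
  have h := Real.abs_cos_sub_cos_le (Real.pi * a) (Real.pi * b)
  have h2 : |Real.pi * a - Real.pi * b| = Real.pi * |a - b| := by
    rw [← mul_sub, abs_mul, abs_of_pos Real.pi_pos]
  have h3 := Real.pi_le_four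
  nlinarith [abs_nonneg (a - b)]

lemma orb_shift_close (K t n : ℕ) :
    |((orb (p K + t) n : Val) : ℝ) - (orb t n : Val)| ≤ 4 / (K + 1) := by
  rw [orb_apply, orb_apply]
  refine (abs_cos_pi _ _).trans ?_
  have h := rho_shift K ((t : ℤ) + n)
  have h2 : (((p K + t : ℕ) : ℤ) + n) = ((t : ℤ) + n) + p K := by push_cast; ring
  rw [h2]
  calc 4 * |rho (((t : ℤ) + n) + p K) - rho ((t : ℤ) + n)| ≤ 4 * (1 / (K + 1)) := by linarith
    _ = _ := by ring

lemma orb_recurrent (t : ℕ) : Tendsto (fun K => orb (p K + t)) atTop (𝓝 (orb t)) := by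
  refine tendsto_pi_nhds.2 fun n => ?_
  refine tendsto_subtype_rng.2 ?_
  refine tendsto_iff_dist_tendsto_zero.2 ?_
  refine squeeze_zero (fun _ => dist_nonneg) (fun K => ?_)
    (show Tendsto (fun K : ℕ => (4 : ℝ) / (K + 1)) atTop (𝓝 0) from ?_)
  · rw [Real.dist_eq]; exact orb_shift_close K t n
  · have := (tendsto_one_div_add_atTop_nhds_zero_nat (𝕜 := ℝ)).const_mul 4
    simpa [div_eq_mul_inv] using this

lemma T_transitive : ∀ U V : Set XX, IsOpen U → IsOpen V → U.Nonempty → V.Nonempty →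
    ∃ n : ℕ, 1 ≤ n ∧ (V ∩ T^[n] ⁻¹' U).Nonempty := by
  intro U V hU hV hUn hVn
  have key : ∀ W : Set XX, IsOpen W → W.Nonempty → ∃ t, (⟨orb t, orb_mem t⟩ : XX) ∈ W := by
    intro W hW ⟨w, hw⟩
    obtain ⟨O, hO, rfl⟩ := isOpen_induced_iff.1 hW
    obtain ⟨z, hz, t, rfl⟩ := mem_closure_iff.1 w.2 O hO hw
    exact ⟨t, hz⟩
  obtain ⟨i, hi⟩ := key U hU hUn
  obtain ⟨j, hj⟩ := key V hV hVn
  obtain ⟨O, hO, rfl⟩ := isOpen_induced_iff.1 hU
  have h1 : ∀ᶠ K in atTop, orb (p K + i) ∈ O := (orb_recurrent i).eventually (hO.mem_nhds hi)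
  obtain ⟨K, hK1, hK2⟩ := (h1.and (eventually_ge_atTop (j + 1))).exists
  have hp := lt_p K
  refine ⟨p K + i - j, by omega, ⟨orb j, orb_mem j⟩, hj, ?_⟩
  show (T^[p K + i - j] ⟨orb j, orb_mem j⟩).1 ∈ O
  rw [T_iter, shift_orb]
  have : j + (p K + i - j) = p K + i := by omega
  rw [this]; exact hK1

/-- the fixed points -/
def one : Amb := fun _ => ⟨1, by norm_num⟩

/-- the fixed points -/
def mone : Amb := fun _ => ⟨-1, by norm_num⟩

lemma const_mem (e : ℕ) (he : e ≤ 1) (c : Val) (hc : (c : ℝ) = (-1) ^ e) :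
    (fun _ => c : Amb) ∈ XX := by
  refine mem_closure_of_tendsto (f := fun k : ℕ => orb (p k * 2 ^ ((2 * k + e) * (k + 1)))) (b := atTop)
    (tendsto_pi_nhds.2 fun n => ?_) (Eventually.of_forall fun k => ⟨_, rfl⟩)
  refine tendsto_nhds_of_eventually_eq ?_
  filter_upwards [eventually_ge_atTop (n + 1)] with k hk
  apply Subtype.ext
  rw [orb_apply]
  have hp := lt_p k
  have hP : p k ≤ p k * 2 ^ ((2 * k + e) * (k + 1)) := Nat.le_mul_of_pos_right _ (by positivity)
  have := rho_const k (2 * k + e) (p k * 2 ^ ((2 * k + e) * (k + 1)) + n) (by omega) (by omega)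
    (by omega) (by rw [pow_succ, ← mul_assoc]; omega)
  push_cast at this ⊢
  rw [this, hc]
  have h2 : Real.pi * (2 * (k : ℝ) + e) = (e : ℝ) * Real.pi + (k : ℤ) * (2 * Real.pi) := by
    push_cast; ring
  rw [h2, Real.cos_add_int_mul_two_pi]
  exact Real.cos_nat_mul_pi e

lemma one_mem : one ∈ XX := const_mem 0 (by norm_num) _ (by simp)

lemma mone_mem : mone ∈ XX := const_mem 1 le_rfl _ (by simp)

lemma T_one (i : ℕ) : T^[i] ⟨one, one_mem⟩ = ⟨one, one_mem⟩ := by
  apply Subtype.ext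
  rw [T_iter]
  funext n
  rw [shift_iter]
  rfl

lemma T_mone (i : ℕ) : T^[i] ⟨mone, mone_mem⟩ = ⟨mone, mone_mem⟩ := by
  apply Subtype.ext
  rw [T_iter]
  funext n
  rw [shift_iter]
  rfl

lemma exists_orb_near {y : Amb} (hy : y ∈ XX) {δ : ℝ} (hδ : 0 < δ) : ∃ t, dist (orb t) y < δ := by
  obtain ⟨z, ⟨t, rfl⟩, h⟩ := Metric.mem_closure_iff.1 hy δ hδ
  exact ⟨t, by rwa [dist_comm]⟩

lemma not_mean : ¬ ∀ ε : ℝ, 0 < ε → ∃ δ : ℝ, 0 < δ ∧ ∀ x y : XX, dist x y < δ →
    ∀ᶠ n in atTop,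
      (∑ i ∈ Finset.range n, dist (T^[i] x) (T^[i] y)) / (n : ℝ) < ε := by
  intro h
  set A : XX := ⟨one, one_mem⟩ with hA
  set B : XX := ⟨mone, mone_mem⟩ with hB
  have hAB : A ≠ B := by
    intro h
    have h1 : one = mone := congrArg Subtype.val h
    have h2 : ((one 0 : Val) : ℝ) = ((mone 0 : Val) : ℝ) := by rw [h1]
    have h3 : ((one 0 : Val) : ℝ) = 1 := rfl
    have h4 : ((mone 0 : Val) : ℝ) = -1 := rfl
    rw [h3, h4] at h2
    norm_num at h2
  set d := dist A B with hd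
  have hd0 : 0 < d := dist_pos.2 hAB
  obtain ⟨δ, hδ, H⟩ := h (d / 4) (by positivity)
  obtain ⟨s, hs⟩ := exists_orb_near one_mem hδ
  obtain ⟨t, ht⟩ := exists_orb_near mone_mem hδ
  have H1 := H ⟨orb s, orb_mem s⟩ A hs
  have H2 := H ⟨orb t, orb_mem t⟩ B ht
  -- both orbits contain the orbit of `orb (s + t)`
  have f1 : ∀ i, T^[i] (⟨orb s, orb_mem s⟩ : XX) = ⟨orb (s + i), orb_mem _⟩ := fun i =>
    Subtype.ext (by rw [T_iter, shift_orb])
  have f2 : ∀ i, T^[i] (⟨orb t, orb_mem t⟩ : XX) = ⟨orb (t + i), orb_mem _⟩ := fun i =>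
    Subtype.ext (by rw [T_iter, shift_orb])
  have g1 : ∀ n, ∑ i ∈ range n, dist (⟨orb (s + t + i), orb_mem _⟩ : XX) A ≤
      ∑ i ∈ range (n + t), dist (T^[i] (⟨orb s, orb_mem s⟩ : XX)) (T^[i] A) := by
    intro n
    rw [add_comm n t, sum_range_add]
    have : ∑ i ∈ range n, dist (T^[t + i] (⟨orb s, orb_mem s⟩ : XX)) (T^[t + i] A) =
        ∑ i ∈ range n, dist (⟨orb (s + t + i), orb_mem _⟩ : XX) A := by
      refine sum_congr rfl fun i _ => ?_
      rw [f1, T_one]
      congr 3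
      ring
    rw [this]
    exact le_add_of_nonneg_left (sum_nonneg fun _ _ => dist_nonneg)
  have g2 : ∀ n, ∑ i ∈ range n, dist (⟨orb (s + t + i), orb_mem _⟩ : XX) B ≤
      ∑ i ∈ range (n + s), dist (T^[i] (⟨orb t, orb_mem t⟩ : XX)) (T^[i] B) := by
    intro n
    rw [add_comm n s, sum_range_add]
    have : ∑ i ∈ range n, dist (T^[s + i] (⟨orb t, orb_mem t⟩ : XX)) (T^[s + i] B) =
        ∑ i ∈ range n, dist (⟨orb (s + t + i), orb_mem _⟩ : XX) B := by
      refine sum_congr rfl fun i _ => ?_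
      rw [f2, T_mone]
      congr 3
      ring
    rw [this]
    exact le_add_of_nonneg_left (sum_nonneg fun _ _ => dist_nonneg)
  have g3 : ∀ n : ℕ, (n : ℝ) * d ≤ ∑ i ∈ range n, dist (⟨orb (s + t + i), orb_mem _⟩ : XX) A +
      ∑ i ∈ range n, dist (⟨orb (s + t + i), orb_mem _⟩ : XX) B := by
    intro n
    rw [← sum_add_distrib]
    calc (n : ℝ) * d = ∑ i ∈ range n, d := by rw [sum_const, card_range, nsmul_eq_mul]
      _ ≤ _ := sum_le_sum fun i _ => by
        rw [hd]
        exact dist_triangle_left _ _ _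
  have e1 := (tendsto_add_atTop_nat t).eventually H1
  have e2 := (tendsto_add_atTop_nat s).eventually H2
  obtain ⟨n, ⟨h1, h2⟩, h3⟩ := ((e1.and e2).and (eventually_ge_atTop (s + t + 1))).exists
  have hn : (0 : ℝ) < n := by
    have : 0 < n := by omega
    exact_mod_cast this
  have hnt : (0 : ℝ) < ((n + t : ℕ) : ℝ) := by push_cast; positivity
  have hns : (0 : ℝ) < ((n + s : ℕ) : ℝ) := by push_cast; positivity
  rw [div_lt_iff₀ hnt] at h1
  rw [div_lt_iff₀ hns] at h2
  have k1 := g1 n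
  have k2 := g2 n
  have k3 := g3 n
  push_cast at h1 h2
  have k4 : (s : ℝ) + t ≤ n := by
    have : s + t ≤ n := by omega
    exact_mod_cast this
  nlinarith

end Pool.Agent.R308.Null
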