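import Mathlib

/-!
A function `rho : ℤ → ℝ` which satisfies the ultrametric inequality up to small errors, and which is
constant on long intervals.
-/

set_option autoImplicit false

namespace Pool.Agent.R308.Null

/-- the periods -/
def p : ℕ → ℕ
  | 0 => 1
  | k + 1 => p k * 2 ^ ((k + 1) * (2 * (k + 1)) + 1)

lemma p_succ (k : ℕ) : p (k + 1) = p k * 2 ^ ((k + 1) * (2 * (k + 1)) + 1) := rfl

lemma p_pos (k : ℕ) : 0 < p k := by
  induction k with
  | zero => simp [p]
  | succ k ih => rw [p_succ]; positivity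

instance (k : ℕ) : NeZero (p k) := ⟨(p_pos k).ne'⟩

lemma p_dvd_succ (k : ℕ) : p k ∣ p (k + 1) := ⟨_, p_succ k⟩

lemma p_dvd {j k : ℕ} (h : j ≤ k) : p j ∣ p k := by
  induction h with
  | refl => exact dvd_rfl
  | step h ih => exact ih.trans (p_dvd_succ _)

lemma p_le {j k : ℕ} (h : j ≤ k) : p j ≤ p k := Nat.le_of_dvd (p_pos k) (p_dvd h)

lemma p_half (k : ℕ) : p (k + 1) / 2 = p k * 2 ^ ((k + 1) * (2 * (k + 1))) := by
  rw [p_succ, pow_succ, ← mul_assoc, Nat.mul_div_cancel _ (by norm_num)]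

lemma lt_p (k : ℕ) : k < p k := by
  induction k with
  | zero => simp [p]
  | succ k ih =>
    rw [p_succ]
    have h : 2 ≤ 2 ^ ((k + 1) * (2 * (k + 1)) + 1) := by
      calc 2 = 2 ^ 1 := by norm_num
        _ ≤ _ := Nat.pow_le_pow_right (by norm_num) (by omega)
    calc k + 1 < p k * 2 := by have := p_pos k; omega
      _ ≤ _ := Nat.mul_le_mul_left _ h

/-- the distance to the multiples of `p (k + 1)` -/
def D (k : ℕ) (n : ℤ) : ℕ := ((n : ZMod (p (k + 1))).valMinAbs).natAbs

lemma D_add (k : ℕ) (m n : ℤ) : D k (m + n) ≤ D k m + D k n := by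
  unfold D
  push_cast
  exact (ZMod.natAbs_valMinAbs_add_le _ _).trans (Int.natAbs_add_le _ _)

lemma D_neg (k : ℕ) (n : ℤ) : D k (-n) = D k n := by
  unfold D
  push_cast
  exact ZMod.natAbs_valMinAbs_neg _

lemma D_le_half (k : ℕ) (n : ℤ) : D k n ≤ p (k + 1) / 2 := ZMod.natAbs_valMinAbs_le _

lemma D_le (k : ℕ) (n : ℤ) : D k n ≤ n.natAbs :=
  ZMod.natAbs_min_of_le_div_two (p (k + 1)) _ n (by simp) (ZMod.natAbs_valMinAbs_le _)

lemma D_nat (k n : ℕ) (h : n ≤ p (k + 1) / 2) : D k (n : ℤ) = n := by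
  unfold D
  have := ZMod.valMinAbs_natCast_of_le_half h
  simp [this]

lemma D_period (k : ℕ) (n m : ℤ) (h : (p (k + 1) : ℤ) ∣ m) : D k (n + m) = D k n := by
  unfold D
  have : ((m : ℤ) : ZMod (p (k + 1))) = 0 := (ZMod.intCast_zmod_eq_zero_iff_dvd _ _).2 h
  push_cast
  rw [this, add_zero]

/-- the logarithmic distance on the level `k` -/
def lam (k : ℕ) (n : ℤ) : ℕ := Nat.log 2 (D k n / p k)

lemma lam_neg (k : ℕ) (n : ℤ) : lam k (-n) = lam k n := by unfold lam; rw [D_neg]

lemma lam_add (k : ℕ) (m n : ℤ) : lam k (m + n) ≤ max (lam k m) (lam k n) + 1 := by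
  unfold lam
  set P := p k with hP
  have hPp : 0 < P := p_pos k
  set q1 := D k m / P with h1
  set q2 := D k n / P with h2
  set M := max (Nat.log 2 q1) (Nat.log 2 q2) with hM
  have e1 : q1 < 2 ^ (M + 1) :=
    (Nat.lt_pow_succ_log_self (by norm_num) q1).trans_le
      (Nat.pow_le_pow_right (by norm_num) (by omega))
  have e2 : q2 < 2 ^ (M + 1) :=
    (Nat.lt_pow_succ_log_self (by norm_num) q2).trans_le
      (Nat.pow_le_pow_right (by norm_num) (by omega))
  have e3 : D k (m + n) / P ≤ q1 + q2 + 1 := by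
    have a1 : D k m < P * (q1 + 1) := Nat.lt_mul_div_succ _ hPp
    have a2 : D k n < P * (q2 + 1) := Nat.lt_mul_div_succ _ hPp
    have a3 := D_add k m n
    have : D k (m + n) / P < q1 + q2 + 2 := by
      rw [Nat.div_lt_iff_lt_mul hPp]
      nlinarith
    omega
  have e4 : D k (m + n) / P < 2 ^ (M + 1 + 1) := by
    rw [pow_succ]; omega
  have := Nat.log_lt_of_lt_pow' (b := 2) (x := M + 1 + 1) (by omega) e4
  omega

lemma lam_zero_of_le (k : ℕ) (n : ℤ) (h : n.natAbs ≤ p k) : lam k n = 0 := by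
  unfold lam
  have h1 : D k n / p k ≤ 1 := by
    have : D k n ≤ p k := (D_le k n).trans h
    calc D k n / p k ≤ p k / p k := Nat.div_le_div_right this
      _ = 1 := Nat.div_self (p_pos k)
  have : Nat.log 2 (D k n / p k) ≤ Nat.log 2 1 := Nat.log_mono_right h1
  simpa using this

lemma lam_cap (k : ℕ) (n : ℤ) : lam k n ≤ (k + 1) * (2 * (k + 1)) := by
  unfold lam
  have h1 : D k n / p k ≤ 2 ^ ((k + 1) * (2 * (k + 1))) := by
    have := D_le_half k n
    rw [p_half] at this
    calc D k n / p k ≤ (p k * 2 ^ ((k + 1) * (2 * (k + 1)))) / p k := Nat.div_le_div_right this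
      _ = _ := Nat.mul_div_cancel_left _ (p_pos k)
  calc Nat.log 2 (D k n / p k) ≤ Nat.log 2 (2 ^ ((k + 1) * (2 * (k + 1)))) :=
        Nat.log_mono_right h1
    _ = _ := Nat.log_pow (by norm_num) _

lemma lam_le_log (k : ℕ) (n : ℤ) : lam k n ≤ Nat.log 2 n.natAbs := by
  unfold lam
  exact Nat.log_mono_right ((Nat.div_le_self _ _).trans (D_le k n))

lemma lam_period (j K : ℕ) (h : j < K) (n m : ℤ) (hm : (p K : ℤ) ∣ m) :
    lam j (n + m) = lam j n := by
  unfold lam
  rw [D_period j n m]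
  exact (Int.natCast_dvd_natCast.2 (p_dvd (by omega : j + 1 ≤ K))).trans hm

lemma lam_eq (k v n : ℕ) (hv : v < 2 * (k + 1)) (h1 : p k * 2 ^ (v * (k + 1)) ≤ n)
    (h2 : n < p k * 2 ^ (v * (k + 1) + 1)) : lam k (n : ℤ) = v * (k + 1) := by
  unfold lam
  have hle : v * (k + 1) + 1 ≤ (k + 1) * (2 * (k + 1)) := by
    have : v + 1 ≤ 2 * (k + 1) := hv
    nlinarith
  rw [D_nat k n]
  · have hp := p_pos k
    apply (Nat.log_eq_iff (Or.inr ⟨by norm_num, ?_⟩)).2
    · constructor
      · rw [Nat.le_div_iff_mul_le hp]; linarith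
      · rw [Nat.div_lt_iff_lt_mul hp]; linarith
    · have : 0 < n / p k := Nat.div_pos (le_trans (Nat.le_mul_of_pos_right _ (by positivity)) h1) hp
      exact this.ne'
  · rw [p_half]
    exact h2.le.trans (Nat.mul_le_mul_left _ (Nat.pow_le_pow_right (by norm_num) hle))

/-- the size on the level `k` -/
noncomputable def psi (k : ℕ) (n : ℤ) : ℝ := (lam k n : ℝ) / (k + 1)

lemma psi_nonneg (k : ℕ) (n : ℤ) : 0 ≤ psi k n := by unfold psi; positivity

lemma psi_le (k : ℕ) (n : ℤ) : psi k n ≤ Nat.log 2 n.natAbs := by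
  unfold psi
  have h1 : (lam k n : ℝ) ≤ Nat.log 2 n.natAbs := by exact_mod_cast lam_le_log k n
  have h2 : (lam k n : ℝ) / (k + 1) ≤ lam k n :=
    div_le_self (by positivity) (by have : (0 : ℝ) ≤ k := by positivity
                                    linarith)
  linarith

lemma psi_neg (k : ℕ) (n : ℤ) : psi k (-n) = psi k n := by unfold psi; rw [lam_neg]

lemma psi_add (k : ℕ) (m n : ℤ) : psi k (m + n) ≤ max (psi k m) (psi k n) + 1 / (k + 1) := by
  unfold psi
  have hk : (0 : ℝ) < k + 1 := by positivity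
  have h := lam_add k m n
  have h' : (lam k (m + n) : ℝ) ≤ max (lam k m : ℝ) (lam k n) + 1 := by exact_mod_cast h
  rw [max_div_div_right hk.le, ← add_div]
  exact div_le_div_of_nonneg_right h' hk.le

lemma psi_cap (k : ℕ) (n : ℤ) : psi k n ≤ 2 * (k + 1) := by
  unfold psi
  have hk : (0 : ℝ) < k + 1 := by positivity
  rw [div_le_iff₀ hk]
  have : (lam k n : ℝ) ≤ (k + 1) * (2 * (k + 1)) := by exact_mod_cast lam_cap k n
  linarith

lemma psi_zero (k : ℕ) (n : ℤ) (h : n.natAbs ≤ p k) : psi k n = 0 := by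
  unfold psi; rw [lam_zero_of_le k n h]; simp

/-- the low levels -/
noncomputable def lo (K : ℕ) (n : ℤ) : ℝ := ⨆ k : ℕ, if k < K then psi k n else 0

/-- the high levels -/
noncomputable def hi (K : ℕ) (n : ℤ) : ℝ := ⨆ k : ℕ, if k < K then 0 else psi k n

/-- the size -/
noncomputable def rho (n : ℤ) : ℝ := ⨆ k : ℕ, psi k n

lemma bdd_rho (n : ℤ) : BddAbove (Set.range fun k => psi k n) :=
  ⟨Nat.log 2 n.natAbs, by rintro _ ⟨k, rfl⟩; exact psi_le k n⟩

lemma bdd_lo (K : ℕ) (n : ℤ) : BddAbove (Set.range fun k => if k < K then psi k n else 0) :=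
  ⟨Nat.log 2 n.natAbs, by
    rintro _ ⟨k, rfl⟩
    dsimp only
    split_ifs
    · exact psi_le k n
    · positivity⟩

lemma bdd_hi (K : ℕ) (n : ℤ) : BddAbove (Set.range fun k => if k < K then 0 else psi k n) :=
  ⟨Nat.log 2 n.natAbs, by
    rintro _ ⟨k, rfl⟩
    dsimp only
    split_ifs
    · positivity
    · exact psi_le k n⟩

lemma psi_le_rho (k : ℕ) (n : ℤ) : psi k n ≤ rho n := le_ciSup (bdd_rho n) k

lemma rho_nonneg (n : ℤ) : 0 ≤ rho n := (psi_nonneg 0 n).trans (psi_le_rho 0 n)

lemma hi_nonneg (K : ℕ) (n : ℤ) : 0 ≤ hi K n := by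
  have := le_ciSup (bdd_hi K n) K
  simp only [lt_irrefl, if_false] at this
  exact (psi_nonneg K n).trans this

lemma psi_le_hi (K k : ℕ) (h : K ≤ k) (n : ℤ) : psi k n ≤ hi K n := by
  have := le_ciSup (bdd_hi K n) k
  simp only [not_lt.2 h, if_false] at this
  exact this

lemma rho_eq (K : ℕ) (n : ℤ) : rho n = max (lo K n) (hi K n) := by
  apply le_antisymm
  · refine ciSup_le fun k => ?_
    by_cases h : k < K
    · have := le_ciSup (bdd_lo K n) k
      simp only [h, if_true] at this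
      exact this.trans (le_max_left _ _)
    · exact (psi_le_hi K k (not_lt.1 h) n).trans (le_max_right _ _)
  · refine max_le (ciSup_le fun k => ?_) (ciSup_le fun k => ?_)
    · split_ifs
      · exact psi_le_rho k n
      · exact rho_nonneg n
    · split_ifs
      · exact rho_nonneg n
      · exact psi_le_rho k n

lemma lo_period (K : ℕ) (n m : ℤ) (hm : (p K : ℤ) ∣ m) : lo K (n + m) = lo K n := by
  unfold lo
  congr 1
  funext k
  split_ifs with h
  · unfold psi; rw [lam_period k K h n m hm]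
  · rfl

lemma hi_neg (K : ℕ) (n : ℤ) : hi K (-n) = hi K n := by
  unfold hi
  congr 1
  funext k
  rw [psi_neg]

lemma hi_add (K : ℕ) (m n : ℤ) : hi K (m + n) ≤ max (hi K m) (hi K n) + 1 / (K + 1) := by
  refine ciSup_le fun k => ?_
  split_ifs with h
  · have h1 := hi_nonneg K m
    have h2 : hi K m ≤ max (hi K m) (hi K n) := le_max_left _ _
    positivity
  · have h' : K ≤ k := not_lt.1 h
    have h1 := psi_add k m n
    have h2 := psi_le_hi K k h' m
    have h3 := psi_le_hi K k h' n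
    have h4 : max (psi k m) (psi k n) ≤ max (hi K m) (hi K n) := max_le_max h2 h3
    have h5 : (1 : ℝ) / (k + 1) ≤ 1 / (K + 1) := by
      apply one_div_le_one_div_of_le (by positivity)
      have : (K : ℝ) ≤ k := by exact_mod_cast h'
      linarith
    linarith

/-- shifting by a period changes the size only a little -/
lemma rho_shift (K : ℕ) (n : ℤ) : |rho (n + p K) - rho n| ≤ 1 / (K + 1) := by
  have hz : hi K (p K : ℤ) = 0 := by
    apply le_antisymm _ (hi_nonneg _ _)
    refine ciSup_le fun k => ?_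
    split_ifs with h
    · exact le_rfl
    · rw [psi_zero k]
      simpa using p_le (not_lt.1 h)
  have h1 : hi K (n + p K) ≤ hi K n + 1 / (K + 1) := by
    have := hi_add K n (p K)
    rw [hz, max_eq_left (hi_nonneg _ _)] at this
    exact this
  have h2 : hi K n ≤ hi K (n + p K) + 1 / (K + 1) := by
    have := hi_add K (n + p K) (-(p K : ℤ))
    rw [hi_neg, hz, max_eq_left (hi_nonneg _ _)] at this
    simpa using this
  rw [rho_eq K, rho_eq K, lo_period K n _ dvd_rfl]
  have := abs_max_sub_max_le_abs (hi K (n + p K)) (hi K n) (lo K n)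
  rw [max_comm (lo K n), max_comm (lo K n)]
  refine this.trans (abs_le.2 ⟨by linarith, by linarith⟩)

/-- the values on long intervals -/
lemma rho_const (k v n : ℕ) (hv : v < 2 * (k + 1)) (hv' : 2 * k ≤ v)
    (h1 : p k * 2 ^ (v * (k + 1)) ≤ n) (h2 : n < p k * 2 ^ (v * (k + 1) + 1)) :
    rho (n : ℤ) = v := by
  have hl := lam_eq k v n hv h1 h2
  have hk : psi k (n : ℤ) = v := by
    unfold psi
    rw [hl]
    push_cast
    field_simp
  apply le_antisymm
  · refine ciSup_le fun j => ?_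
    rcases lt_trichotomy j k with h | h | h
    · have := psi_cap j n
      have h3 : (2 : ℝ) * (j + 1) ≤ v := by
        have : 2 * (j + 1) ≤ v := by omega
        exact_mod_cast this
      linarith
    · rw [h, hk]
    · rw [psi_zero j]
      · positivity
      · simp only [Int.natAbs_natCast]
        have hle : v * (k + 1) + 1 ≤ (k + 1) * (2 * (k + 1)) + 1 := by
          have : v ≤ 2 * (k + 1) := hv.le
          nlinarith
        calc n ≤ p k * 2 ^ (v * (k + 1) + 1) := h2.le
          _ ≤ p (k + 1) := by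
            rw [p_succ]
            exact Nat.mul_le_mul_left _ (Nat.pow_le_pow_right (by norm_num) hle)
          _ ≤ p j := p_le h
  · rw [← hk]; exact psi_le_rho k n

end Pool.Agent.R308.Null
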