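import Pool.Agent.R853.Obs.Stm

set_option autoImplicit false

/-!
# MP_0a8f24_an, piece OB-M: multiplication by `bt x` of an inverse Fourier transform
-/

open MeasureTheory FourierTransform SchwartzMap Complex Filter Topology
open scoped ENNReal InnerProductSpace ComplexConjugate ContDiff LineDeriv

namespace Pool.Agent.R308.OBM

open Pool.Agent.R853.Obs

variable {d : ℕ}

/-- the full exponential -/
noncomputable def W (q x : E d) (c ζ : ℂ) (ξ : E d) : ℂ :=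
  Complex.exp (-c * ((‖ξ‖ ^ 2 : ℝ) : ℂ) - ζ * (2 * Real.pi * I * ((⟪q, ξ⟫_ℝ : ℝ) : ℂ))
    + 2 * Real.pi * I * ((⟪x, ξ⟫_ℝ : ℝ) : ℂ))

lemma W_hasFDerivAt (q x : E d) (c ζ : ℂ) (ξ : E d) :
    ∃ L : E d →L[ℝ] ℂ, HasFDerivAt (W q x c ζ) L ξ ∧
      ∀ v, L v = W q x c ζ ξ * (-c * (2 * ((⟪ξ, v⟫_ℝ : ℝ) : ℂ)) - ζ * (2 * Real.pi * I * ((⟪q, v⟫_ℝ : ℝ) : ℂ))
        + 2 * Real.pi * I * ((⟪x, v⟫_ℝ : ℝ) : ℂ)) := by
  have h1 : HasFDerivAt (fun ξ : E d => ((‖ξ‖ ^ 2 : ℝ) : ℂ))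
      (ofRealCLM ∘L (2 • innerSL ℝ ξ)) ξ :=
    ofRealCLM.hasFDerivAt.comp ξ (hasStrictFDerivAt_norm_sq ξ).hasFDerivAt
  have h2 : ∀ q : E d, HasFDerivAt (fun ξ : E d => ((⟪q, ξ⟫_ℝ : ℝ) : ℂ))
      (ofRealCLM ∘L innerSL ℝ q) ξ := fun q => (ofRealCLM ∘L innerSL ℝ q).hasFDerivAt
  have h := ((h1.const_mul (-c)).sub (((h2 q).const_mul (2 * Real.pi * I)).const_mul ζ)).add
    ((h2 x).const_mul (2 * Real.pi * I))
  refine ⟨_, h.cexp, fun v => ?_⟩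
  simp [W, smul_eq_mul]
  ring

lemma W_cont (q x : E d) (c ζ : ℂ) : Continuous (W q x c ζ) := by
  unfold W
  fun_prop

lemma W_bdd (q x : E d) (c ζ : ℂ) (h : Adm c ζ) : ∃ M : ℝ, ∀ ξ, ‖W q x c ζ ξ‖ ≤ M := by
  have hre : ∀ ξ : E d, ‖W q x c ζ ξ‖ = Real.exp (-c.re * ‖ξ‖ ^ 2 + ζ.im * (2 * Real.pi * ⟪q, ξ⟫_ℝ)) := by
    intro ξ
    rw [W, Complex.norm_exp]
    congr 1
    simp only [Complex.add_re, Complex.sub_re, Complex.mul_re, Complex.ofReal_re, Complex.ofReal_im,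
      Complex.neg_re, Complex.neg_im, Complex.mul_im, Complex.I_re, Complex.I_im, Complex.re_ofNat,
      Complex.im_ofNat]
    ring
  rcases h with h | ⟨h1, h2⟩
  · refine ⟨Real.exp ((|ζ.im| * (2 * Real.pi * ‖q‖)) ^ 2 / (4 * c.re)), fun ξ => ?_⟩
    rw [hre, Real.exp_le_exp]
    set b := |ζ.im| * (2 * Real.pi * ‖q‖) with hb
    have h3 : ζ.im * (2 * Real.pi * ⟪q, ξ⟫_ℝ) ≤ b * ‖ξ‖ := by
      calc ζ.im * (2 * Real.pi * ⟪q, ξ⟫_ℝ) ≤ |ζ.im * (2 * Real.pi * ⟪q, ξ⟫_ℝ)| := le_abs_self _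
        _ = |ζ.im| * (2 * Real.pi * |⟪q, ξ⟫_ℝ|) := by
          rw [abs_mul, abs_mul, abs_of_nonneg (by positivity : (0:ℝ) ≤ 2 * Real.pi)]
        _ ≤ |ζ.im| * (2 * Real.pi * (‖q‖ * ‖ξ‖)) := by
          gcongr
          exact abs_real_inner_le_norm q ξ
        _ = b * ‖ξ‖ := by rw [hb]; ring
    have h4 : b ^ 2 / (4 * c.re) - (-c.re * ‖ξ‖ ^ 2 + b * ‖ξ‖) = (b - 2 * c.re * ‖ξ‖) ^ 2 / (4 * c.re) := by
      field_simp
      ring
    have h5 : 0 ≤ (b - 2 * c.re * ‖ξ‖) ^ 2 / (4 * c.re) := by positivity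
    linarith
  · refine ⟨1, fun ξ => ?_⟩
    rw [hre, h2]
    simp only [zero_mul, add_zero]
    rw [Real.exp_le_one_iff]
    nlinarith [sq_nonneg ‖ξ‖, mul_nonneg h1 (sq_nonneg ‖ξ‖)]

lemma W_int (q x : E d) (c ζ : ℂ) (h : Adm c ζ) (χ : 𝓢(E d, ℂ)) :
    Integrable (fun ξ => W q x c ζ ξ * χ ξ) := by
  obtain ⟨M, hM⟩ := W_bdd q x c ζ h
  exact χ.integrable.bdd_mul (W_cont q x c ζ).aestronglyMeasurable (Filter.Eventually.of_forall hM)

lemma inv_eq (q : E d) (c ζ : ℂ) (G : E d → ℂ) (x : E d) :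
    𝓕⁻ (fun ξ => ex q c ζ ξ * G ξ) x = ∫ ξ, W q x c ζ ξ * G ξ := by
  rw [Real.fourierInv_eq']
  congr 1
  ext ξ
  rw [smul_eq_mul, ← mul_assoc, ex, ← Complex.exp_add, W]
  congr 2
  push_cast
  rw [real_inner_comm x ξ]
  ring

/-- multiplication of a Schwartz function by the coordinate -/
noncomputable def cm (j : Fin d) (χ : 𝓢(E d, ℂ)) : 𝓢(E d, ℂ) :=
  smulLeftCLM ℂ (fun ξ : E d => ((ξ j : ℝ) : ℂ)) χ

lemma cm_apply (j : Fin d) (χ : 𝓢(E d, ℂ)) (ξ : E d) : cm j χ ξ = (ξ j : ℂ) * χ ξ := by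
  have h : Function.HasTemperateGrowth (fun ξ : E d => ((ξ j : ℝ) : ℂ)) :=
    (ofRealCLM ∘L (EuclideanSpace.proj j : E d →L[ℝ] ℝ)).hasTemperateGrowth
  rw [cm, smulLeftCLM_apply_apply h, smul_eq_mul]

noncomputable def vj (j : Fin d) : E d := EuclideanSpace.single j (1 : ℝ)

noncomputable def cA (j : Fin d) (χ : 𝓢(E d, ℂ)) : 𝓢(E d, ℂ) :=
  (I / (2 * Real.pi)) • (∂_{vj j} χ : 𝓢(E d, ℂ)) - I • χ

noncomputable def cB (j : Fin d) (χ : 𝓢(E d, ℂ)) : 𝓢(E d, ℂ) := (-(I / Real.pi)) • cm j χ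

noncomputable def cC (q : E d) (j : Fin d) (χ : 𝓢(E d, ℂ)) : 𝓢(E d, ℂ) := ((q j : ℝ) : ℂ) • χ

lemma step1 (q x : E d) (j : Fin d) (c ζ : ℂ) (h : Adm c ζ) (χ : 𝓢(E d, ℂ)) :
    ((x j : ℂ) - I) * ∫ ξ, W q x c ζ ξ * χ ξ
      = (∫ ξ, W q x c ζ ξ * cA j χ ξ) + c * (∫ ξ, W q x c ζ ξ * cB j χ ξ)
        + ζ * (∫ ξ, W q x c ζ ξ * cC q j χ ξ) := by
  have hv : ∀ y : E d, ⟪y, vj j⟫_ℝ = y j := by
    intro y
    simp [vj, EuclideanSpace.inner_single_right]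
  choose L hL hLv using fun ξ => W_hasFDerivAt q x c ζ ξ
  have i0 := W_int q x c ζ h χ
  have i1 := W_int q x c ζ h (∂_{vj j} χ : 𝓢(E d, ℂ))
  have i2 := W_int q x c ζ h (cm j χ)
  have hLv' : ∀ ξ, L ξ (vj j) * χ ξ = (-2 * c) * (W q x c ζ ξ * cm j χ ξ)
      + (2 * Real.pi * I * ((x j : ℂ) - ζ * (q j : ℂ))) * (W q x c ζ ξ * χ ξ) := by
    intro ξ
    rw [hLv, hv, hv, hv, cm_apply]
    ring
  have key : ∫ ξ, W q x c ζ ξ * (∂_{vj j} χ : 𝓢(E d, ℂ)) ξ = - ∫ ξ, L ξ (vj j) * χ ξ := by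
    have := integral_bilinear_hasFDerivAt_right_eq_neg_left_of_integrable
      (μ := (volume : Measure (E d))) (f := W q x c ζ) (f' := L)
      (g := (χ : E d → ℂ)) (g' := fun ξ => fderiv ℝ χ ξ) (v := vj j)
      (B := ContinuousLinearMap.mul ℝ ℂ) ?_ ?_ ?_ (fun ξ _ => hL ξ) (fun ξ _ => χ.hasFDerivAt ξ)
    · simpa [lineDerivOp_apply_eq_fderiv] using this
    · simp only [ContinuousLinearMap.mul_apply']
      simp_rw [hLv']
      exact (i2.const_mul _).add (i0.const_mul _)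
    · simpa [lineDerivOp_apply_eq_fderiv] using i1
    · simpa using i0
  have key2 : ∫ ξ, L ξ (vj j) * χ ξ = (-2 * c) * (∫ ξ, W q x c ζ ξ * cm j χ ξ)
      + (2 * Real.pi * I * ((x j : ℂ) - ζ * (q j : ℂ))) * (∫ ξ, W q x c ζ ξ * χ ξ) := by
    simp_rw [hLv']
    rw [integral_add (i2.const_mul _) (i0.const_mul _), integral_const_mul, integral_const_mul]
  have eA : ∫ ξ, W q x c ζ ξ * cA j χ ξ = (I / (2 * Real.pi)) * (∫ ξ, W q x c ζ ξ * (∂_{vj j} χ : 𝓢(E d, ℂ)) ξ)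
      - I * ∫ ξ, W q x c ζ ξ * χ ξ := by
    rw [← integral_const_mul, ← integral_const_mul, ← integral_sub (i1.const_mul _) (i0.const_mul _)]
    congr 1
    ext ξ
    simp only [cA, _root_.sub_apply, _root_.smul_apply, smul_eq_mul]
    ring
  have eB : ∫ ξ, W q x c ζ ξ * cB j χ ξ = (-(I / Real.pi)) * (∫ ξ, W q x c ζ ξ * cm j χ ξ) := by
    rw [← integral_const_mul]
    congr 1
    ext ξ
    simp only [cB, _root_.smul_apply, smul_eq_mul]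
    ring
  have eC : ∫ ξ, W q x c ζ ξ * cC q j χ ξ = (q j : ℂ) * (∫ ξ, W q x c ζ ξ * χ ξ) := by
    rw [← integral_const_mul]
    congr 1
    ext ξ
    simp only [cC, _root_.smul_apply, smul_eq_mul]
    ring
  rw [eA, eB, eC, key, key2]
  have hpi : (Real.pi : ℂ) ≠ 0 := by exact_mod_cast Real.pi_ne_zero
  have hI : I ^ 2 = -1 := Complex.I_sq
  field_simp
  ring_nf
  simp only [hI]
  ring

/-- functions that are polynomials in the parameters with Schwartz coefficients -/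
def IsP (G : ℂ → ℂ → E d → ℂ) : Prop :=
  ∃ (n : ℕ) (χ : ℕ → ℕ → 𝓢(E d, ℂ)), ∀ c ζ ξ, G c ζ ξ = poly n χ c ζ ξ

lemma poly_ext (n m : ℕ) (hnm : n ≤ m) (χ : ℕ → ℕ → 𝓢(E d, ℂ)) (c ζ : ℂ) (ξ : E d) :
    poly n χ c ζ ξ = poly m (fun k l => if k < n ∧ l < n then χ k l else 0) c ζ ξ := by
  unfold poly
  rw [← Finset.sum_subset (Finset.range_subset_range.2 hnm)]
  · apply Finset.sum_congr rfl
    intro k hk
    rw [← Finset.sum_subset (Finset.range_subset_range.2 hnm)]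
    · apply Finset.sum_congr rfl
      intro l hl
      rw [Finset.mem_range] at hk hl
      simp [hk, hl]
    · intro l _ hl
      rw [Finset.mem_range] at hl
      simp [hl]
  · intro k _ hk
    apply Finset.sum_eq_zero
    intro l _
    rw [Finset.mem_range] at hk
    simp [hk]

lemma IsP.add {G H : ℂ → ℂ → E d → ℂ} (hG : IsP G) (hH : IsP H) :
    IsP (fun c ζ ξ => G c ζ ξ + H c ζ ξ) := by
  obtain ⟨n, χ, h⟩ := hG
  obtain ⟨m, χ', h'⟩ := hH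
  refine ⟨max n m, fun k l => (if k < n ∧ l < n then χ k l else 0) + (if k < m ∧ l < m then χ' k l else 0),
    fun c ζ ξ => ?_⟩
  show G c ζ ξ + H c ζ ξ = _
  rw [h, h', poly_ext n (max n m) (le_max_left _ _) χ, poly_ext m (max n m) (le_max_right _ _) χ']
  unfold poly
  rw [← Finset.sum_add_distrib]
  apply Finset.sum_congr rfl
  intro k _
  rw [← Finset.sum_add_distrib]
  apply Finset.sum_congr rfl
  intro l _
  rw [_root_.add_apply]
  ring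

lemma IsP.zero : IsP (fun (_ _ : ℂ) (_ : E d) => (0 : ℂ)) :=
  ⟨0, fun _ _ => 0, fun c ζ ξ => by simp [poly]⟩

lemma IsP.mono (k l : ℕ) (χ : 𝓢(E d, ℂ)) : IsP (fun c ζ ξ => c ^ k * ζ ^ l * χ ξ) := by
  refine ⟨max k l + 1, fun k' l' => if k' = k ∧ l' = l then χ else 0, fun c ζ ξ => ?_⟩
  unfold poly
  rw [Finset.sum_eq_single k, Finset.sum_eq_single l]
  · simp
  · intro l' _ hl'
    simp [hl']
  · intro hl'
    exact absurd (Finset.mem_range.2 (by omega)) hl'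
  · intro k' _ hk'
    apply Finset.sum_eq_zero
    intro l' _
    simp [hk']
  · intro hk'
    exact absurd (Finset.mem_range.2 (by omega)) hk'

lemma IsP.sum {ι : Type*} (s : Finset ι) (G : ι → ℂ → ℂ → E d → ℂ) (h : ∀ i, IsP (G i)) :
    IsP (fun c ζ ξ => ∑ i ∈ s, G i c ζ ξ) := by
  classical
  induction s using Finset.induction_on with
  | empty => simpa using IsP.zero
  | insert a s ha ih =>
    simp_rw [Finset.sum_insert ha]
    exact (h a).add ih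

lemma step2 (q : E d) (j : Fin d) (n : ℕ) (χ : ℕ → ℕ → 𝓢(E d, ℂ)) :
    ∃ (n' : ℕ) (χ' : ℕ → ℕ → 𝓢(E d, ℂ)), ∀ c ζ : ℂ, Adm c ζ → ∀ x : E d,
      ((x j : ℂ) - I) * 𝓕⁻ (fun ξ => ex q c ζ ξ * poly n χ c ζ ξ) x
        = 𝓕⁻ (fun ξ => ex q c ζ ξ * poly n' χ' c ζ ξ) x := by
  have hP : IsP (fun c ζ (ξ : E d) => ∑ k ∈ Finset.range n, ∑ l ∈ Finset.range n,
      (c ^ k * ζ ^ l * cA j (χ k l) ξ + c ^ (k + 1) * ζ ^ l * cB j (χ k l) ξ
        + c ^ k * ζ ^ (l + 1) * cC q j (χ k l) ξ)) :=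
    IsP.sum _ _ (fun k => IsP.sum _ _ (fun l =>
      ((IsP.mono k l (cA j (χ k l))).add (IsP.mono (k + 1) l (cB j (χ k l)))).add
        (IsP.mono k (l + 1) (cC q j (χ k l)))))
  obtain ⟨n', χ', hχ'⟩ := hP
  refine ⟨n', χ', fun c ζ h x => ?_⟩
  rw [inv_eq, inv_eq]
  simp_rw [← hχ']
  simp only [poly, Finset.mul_sum]
  have i0 : ∀ k l, Integrable (fun ξ => W q x c ζ ξ * (c ^ k * ζ ^ l * χ k l ξ)) := by
    intro k l
    have := (W_int q x c ζ h (χ k l)).const_mul (c ^ k * ζ ^ l)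
    refine this.congr (Filter.Eventually.of_forall fun ξ => ?_)
    simp only
    ring
  have iA : ∀ k l, Integrable (fun ξ => W q x c ζ ξ * (c ^ k * ζ ^ l * cA j (χ k l) ξ
      + c ^ (k + 1) * ζ ^ l * cB j (χ k l) ξ + c ^ k * ζ ^ (l + 1) * cC q j (χ k l) ξ)) := by
    intro k l
    have := (((W_int q x c ζ h (cA j (χ k l))).const_mul (c ^ k * ζ ^ l)).add
      ((W_int q x c ζ h (cB j (χ k l))).const_mul (c ^ (k + 1) * ζ ^ l))).add
      ((W_int q x c ζ h (cC q j (χ k l))).const_mul (c ^ k * ζ ^ (l + 1)))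
    refine this.congr (Filter.Eventually.of_forall fun ξ => ?_)
    simp only [Pi.add_apply]
    ring
  rw [integral_finsetSum _ (fun k _ => integrable_finsetSum _ (fun l _ => i0 k l)),
    integral_finsetSum _ (fun k _ => integrable_finsetSum _ (fun l _ => iA k l)), Finset.mul_sum]
  apply Finset.sum_congr rfl
  intro k _
  rw [integral_finsetSum _ (fun l _ => i0 k l), integral_finsetSum _ (fun l _ => iA k l),
    Finset.mul_sum]
  apply Finset.sum_congr rfl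
  intro l _
  have e1 : ∫ ξ, W q x c ζ ξ * (c ^ k * ζ ^ l * χ k l ξ)
      = (c ^ k * ζ ^ l) * ∫ ξ, W q x c ζ ξ * χ k l ξ := by
    rw [← integral_const_mul]
    congr 1
    ext ξ
    ring
  have e2 : ∫ ξ, W q x c ζ ξ * (c ^ k * ζ ^ l * cA j (χ k l) ξ
      + c ^ (k + 1) * ζ ^ l * cB j (χ k l) ξ + c ^ k * ζ ^ (l + 1) * cC q j (χ k l) ξ)
      = (c ^ k * ζ ^ l) * ((∫ ξ, W q x c ζ ξ * cA j (χ k l) ξ)
        + c * (∫ ξ, W q x c ζ ξ * cB j (χ k l) ξ) + ζ * (∫ ξ, W q x c ζ ξ * cC q j (χ k l) ξ)) := by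
    have jA := W_int q x c ζ h (cA j (χ k l))
    have jB := (W_int q x c ζ h (cB j (χ k l))).const_mul c
    have jC := (W_int q x c ζ h (cC q j (χ k l))).const_mul ζ
    have s1 := integral_add (jA.add jB) jC
    have s2 := integral_add jA jB
    simp only [Pi.add_apply] at s1 s2
    rw [← integral_const_mul c, ← integral_const_mul ζ, ← s2, ← s1, ← integral_const_mul]
    congr 1
    ext ξ
    ring
  rw [e1, e2, ← step1 q x j c ζ h (χ k l)]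
  ring

theorem stM : Pool.Agent.R853.Obs.StM := by
  intro d q χ
  classical
  have main : ∀ S : Finset (Fin d), ∃ (n : ℕ) (χ' : ℕ → ℕ → 𝓢(E d, ℂ)),
      ∀ c ζ : ℂ, Adm c ζ → ∀ x : E d,
        (∏ j ∈ S, ((x j : ℂ) - I)) * 𝓕⁻ (fun ξ => ex q c ζ ξ * χ ξ) x
          = 𝓕⁻ (fun ξ => ex q c ζ ξ * poly n χ' c ζ ξ) x := by
    intro S
    induction S using Finset.induction_on with
    | empty =>
      refine ⟨1, fun _ _ => χ, fun c ζ _ x => ?_⟩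
      simp [poly]
    | insert a S ha ih =>
      obtain ⟨n, χ', h'⟩ := ih
      obtain ⟨n', χ'', h''⟩ := step2 q a n χ'
      refine ⟨n', χ'', fun c ζ h x => ?_⟩
      rw [Finset.prod_insert ha, mul_assoc, h' c ζ h x, h'' c ζ h x]
  obtain ⟨n, χ', h⟩ := main Finset.univ
  exact ⟨n, χ', fun c ζ hA x => h c ζ hA x⟩

end Pool.Agent.R308.OBM
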