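import Mathlib

/-! Rows of Pascal's triangle modulo a prime: digit recursions (Lucas). -/

namespace Pool.Agent.R308.Pascal

open Finset

/-- The number of entries of row `k` of Pascal's triangle that are not divisible by `p`. -/
def row (p k : ℕ) : ℕ := ((range (k + 1)).filter (fun j => ¬ p ∣ k.choose j)).card

/-- The number of entries in rows `0, …, n-1` that are not divisible by `p`. -/
def cnt (p n : ℕ) : ℕ := ∑ k ∈ range n, row p k

theorem sum_mul_range (g : ℕ → ℕ) (p m : ℕ) :
    ∑ j ∈ range (p * m), g j = ∑ j ∈ range m, ∑ i ∈ range p, g (p * j + i) := by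
  induction m with
  | zero => simp
  | succ m ih => rw [Nat.mul_succ, sum_range_add, ih, sum_range_succ]

theorem choose_small {p b i : ℕ} (hp : p.Prime) (hb : b < p) :
    p ∣ b.choose i ↔ b < i := by
  constructor
  · intro h
    by_contra hc
    push Not at hc
    have h1 := Nat.choose_mul_factorial_mul_factorial hc
    have h2 : p ∣ b.factorial := by
      rw [← h1]
      exact Dvd.dvd.mul_right (Dvd.dvd.mul_right h _) _
    rw [hp.dvd_factorial] at h2
    omega
  · intro h
    rw [Nat.choose_eq_zero_of_lt h]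
    exact dvd_zero _

theorem lucas_dvd {p n b j i : ℕ} (hp : p.Prime) (hb : b < p) (hi : i < p) :
    p ∣ (p * n + b).choose (p * j + i) ↔ b < i ∨ p ∣ n.choose j := by
  have : Fact p.Prime := ⟨hp⟩
  have h := Choose.choose_modEq_choose_mod_mul_choose_div_nat (n := p * n + b) (k := p * j + i)
    (p := p)
  have e1 : (p * n + b) % p = b := by
    rw [Nat.mul_add_mod]; exact Nat.mod_eq_of_lt hb
  have e2 : (p * j + i) % p = i := by
    rw [Nat.mul_add_mod]; exact Nat.mod_eq_of_lt hi
  have e3 : (p * n + b) / p = n := by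
    rw [Nat.mul_add_div hp.pos, Nat.div_eq_of_lt hb, add_zero]
  have e4 : (p * j + i) / p = j := by
    rw [Nat.mul_add_div hp.pos, Nat.div_eq_of_lt hi, add_zero]
  rw [e1, e2, e3, e4] at h
  rw [(Nat.ModEq.dvd_iff h dvd_rfl), hp.dvd_mul, choose_small hp hb]

theorem row_eq_sum {p k N : ℕ} (hN : k < N) :
    row p k = ∑ j ∈ range N, (if p ∣ k.choose j then 0 else 1) := by
  have h1 : row p k = ∑ j ∈ range (k + 1), (if p ∣ k.choose j then 0 else 1) := by
    rw [row, card_filter]
    exact sum_congr rfl (fun j _ => by split_ifs <;> simp_all)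
  rw [h1]
  refine sum_subset (by intro x; simp only [mem_range]; omega) ?_
  intro x _ hx
  simp only [mem_range, not_lt] at hx
  rw [Nat.choose_eq_zero_of_lt (by omega)]
  simp

theorem row_mul {p n b : ℕ} (hp : p.Prime) (hb : b < p) :
    row p (p * n + b) = (b + 1) * row p n := by
  have h0 : p * n + b < p * (n + 1) := by
    rw [Nat.mul_succ]; omega
  rw [row_eq_sum h0, sum_mul_range, row_eq_sum (Nat.lt_succ_self n), mul_sum]
  refine sum_congr rfl (fun j _ => ?_)
  have h1 : ∀ i ∈ range p, (if p ∣ (p * n + b).choose (p * j + i) then 0 else 1)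
      = if i ∈ range (b + 1) then (if p ∣ n.choose j then 0 else 1) else 0 := by
    intro i hi
    rw [mem_range] at hi
    have := lucas_dvd (n := n) (j := j) hp hb hi
    by_cases h2 : b < i
    · have h3 : i ∉ range (b + 1) := by simp only [mem_range, not_lt]; omega
      simp [this, h2]
    · have h3 : i ∈ range (b + 1) := by simp only [mem_range]; omega
      simp only [this, h2, false_or, h3, if_true]
  rw [sum_congr rfl h1, sum_ite_mem, sum_const]
  have h4 : range p ∩ range (b + 1) = range (b + 1) := by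
    apply inter_eq_right.2
    intro x; simp only [mem_range]; omega
  rw [h4, card_range, smul_eq_mul]

theorem row_small {p b : ℕ} (hp : p.Prime) (hb : b < p) : row p b = b + 1 := by
  have h := row_mul (n := 0) hp hb
  have h0 : row p 0 = 1 := by
    have : ¬ p ∣ 1 := hp.one_lt.ne' ∘ Nat.dvd_one.1
    simp [row, Finset.filter_singleton, this]
  simpa [h0] using h

theorem row_pow {p : ℕ} (hp : p.Prime) (k : ℕ) : ∀ n j : ℕ, j < p ^ k →
    row p (n * p ^ k + j) = row p n * row p j := by
  induction k with
  | zero =>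
    intro n j hj
    have : j = 0 := by simpa using hj
    subst this
    rw [row_small hp hp.pos]
    simp
  | succ k ih =>
    intro n j hj
    have hb := Nat.mod_lt j hp.pos
    have hj' : j / p < p ^ k := by
      rw [Nat.div_lt_iff_lt_mul hp.pos]; rwa [pow_succ] at hj
    have hjd : p * (j / p) + j % p = j := Nat.div_add_mod j p
    have e1 : n * p ^ (k + 1) + j = p * (n * p ^ k + j / p) + j % p := by
      rw [pow_succ]; nlinarith
    rw [e1, row_mul hp hb, ih _ _ hj']
    conv_rhs => rw [← hjd, row_mul hp hb]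
    ring

theorem sum_range_succ_id (p : ℕ) : 2 * ∑ i ∈ range p, (i + 1) = p * (p + 1) := by
  induction p with
  | zero => simp
  | succ p ih => rw [sum_range_succ, mul_add, ih]; ring

theorem cnt_mul {p : ℕ} (hp : p.Prime) (n : ℕ) : 2 * cnt p (p * n) = p * (p + 1) * cnt p n := by
  rw [cnt, sum_mul_range]
  have : ∀ k ∈ range n, ∑ i ∈ range p, row p (p * k + i) = (∑ i ∈ range p, (i + 1)) * row p k := by
    intro k _
    rw [sum_mul]
    exact sum_congr rfl (fun i hi => row_mul hp (mem_range.1 hi))
  rw [sum_congr rfl this, ← mul_sum, ← mul_assoc, sum_range_succ_id, cnt]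

theorem cnt_mul_pow {p : ℕ} (hp : p.Prime) (n k : ℕ) :
    2 ^ k * cnt p (n * p ^ k) = (p * (p + 1)) ^ k * cnt p n := by
  induction k with
  | zero => simp
  | succ k ih =>
    have e : n * p ^ (k + 1) = p * (n * p ^ k) := by rw [pow_succ]; ring
    rw [e, pow_succ, mul_assoc, cnt_mul hp, pow_succ]
    calc 2 ^ k * (p * (p + 1) * cnt p (n * p ^ k))
        = p * (p + 1) * (2 ^ k * cnt p (n * p ^ k)) := by ring
      _ = _ := by rw [ih]; ring

theorem cnt_add {p : ℕ} (hp : p.Prime) (n k m : ℕ) (hm : m ≤ p ^ k) :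
    cnt p (n * p ^ k + m) = cnt p (n * p ^ k) + row p n * cnt p m := by
  rw [cnt, sum_range_add, ← cnt, cnt, cnt, mul_sum]
  congr 1
  refine sum_congr rfl (fun j hj => row_pow hp k n j ?_)
  rw [mem_range] at hj
  omega

theorem cnt_small {p a : ℕ} (hp : p.Prime) (ha : a ≤ p) : 2 * cnt p a = a * (a + 1) := by
  rw [← sum_range_succ_id, cnt]
  congr 1
  refine sum_congr rfl (fun j hj => row_small hp ?_)
  rw [mem_range] at hj
  omega

end Pool.Agent.R308.Pascal
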