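import Pool.Agent.R308.PascalReal

/-! The closed regions and the checks for `p = 5, 7, 11` (generated). -/

namespace Pool.Agent.R308.Pascal

open Finset Filter

/-- The region for `p = 5`. -/
def reg5 (y G : ℝ) : Prop :=
  0 ≤ y ∧ y ≤ 1 ∧ 0 ≤ G ∧ (109 / 144 : ℝ) * y + (-37 / 288 : ℝ) ≤ G ∧ (13 / 12 : ℝ) * y + (-7 / 24 : ℝ) ≤ G ∧ (17 / 12 : ℝ) * y + (-21 / 40 : ℝ) ≤ G

theorem prime5 : Nat.Prime 5 := by norm_num

theorem CC5 : CC 5 = 15 := by norm_num [CC]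

theorem step5 (a : ℕ) (ha : a < 5) (y G : ℝ) (h : reg5 y G) :
    reg5 ((a + y) / (5 : ℕ)) (((a : ℝ) * (a + 1) / 2 + (a + 1) * G) / CC 5) := by
  obtain ⟨h0, h1, h2, h3, h4, h5⟩ := h
  rw [CC5]
  unfold reg5
  interval_cases a <;> norm_num only [Nat.cast_zero, Nat.cast_one, Nat.cast_ofNat] <;>
    refine ⟨?_, ?_, ?_, ?_, ?_, ?_⟩ <;> linarith

theorem hi5 : theta 5 ≤ (17 : ℕ) / (10 : ℕ) :=
  theta_le prime5 17 10 (by norm_num) (by rw [CC5]; norm_num)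

theorem lo5 : ((5 : ℕ) : ℝ) / (3 : ℕ) ≤ theta 5 :=
  le_theta prime5 5 3 (by norm_num) (by rw [CC5]; norm_num)

theorem one5 : 1 ≤ theta 5 := by
  have := lo5
  norm_num at this
  linarith

theorem fin5 (a : ℕ) (ha1 : 1 ≤ a) (ha : a < 5) (y G : ℝ) (h : reg5 y G) :
    (3 / 2 : ℝ) * ((a + y) / (3 / 2 : ℝ)) ^ theta 5 ≤ (a : ℝ) * (a + 1) / 2 + (a + 1) * G := by
  obtain ⟨h0, h1, h2, h3, h4, h5⟩ := h
  have hθ := one5
  interval_cases a
  · norm_num only [Nat.cast_one, Nat.cast_ofNat]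
    have e0 : (2 / 3 : ℝ) ^ theta 5 ≤ (2 / 3 : ℝ) :=
      small 5 3 (by norm_num) lo5 (by norm_num) (by norm_num) (by norm_num) (by norm_num)
    have e1 : (23 / 30 : ℝ) ^ theta 5 ≤ (1397 / 2160 : ℝ) :=
      small 5 3 (by norm_num) lo5 (by norm_num) (by norm_num) (by norm_num) (by norm_num)
    have e2 : (1 : ℝ) ^ theta 5 ≤ 1 := by rw [Real.one_rpow]
    have e3 : (4 / 3 : ℝ) ^ theta 5 ≤ (31 / 18 : ℝ) :=
      big 17 10 (by norm_num) hi5 (by norm_num) (by norm_num) (by norm_num)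
    rcases le_total y (3 / 20 : ℝ) with hy0 | hy0
    · have k := seg (θ := theta 5) (z0 := (3 / 2 : ℝ)) (c := (3 / 2 : ℝ)) (A := (0 : ℝ)) (B := (1 : ℝ))
        (u := (1 : ℝ)) (v := (23 / 20 : ℝ)) (z := (1 : ℝ) + y) hθ (by norm_num) (by norm_num) (by norm_num)
        (by linarith) (by linarith)
        (by rw [show (1 : ℝ) / (3 / 2 : ℝ) = (2 / 3 : ℝ) by norm_num]; linarith)
        (by rw [show (23 / 20 : ℝ) / (3 / 2 : ℝ) = (23 / 30 : ℝ) by norm_num]; linarith)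
      linarith
    · rcases le_total y (1 / 2 : ℝ) with hy1 | hy1
      · have k := seg (θ := theta 5) (z0 := (3 / 2 : ℝ)) (c := (3 / 2 : ℝ)) (A := (109 / 72 : ℝ)) (B := (-37 / 48 : ℝ))
          (u := (23 / 20 : ℝ)) (v := (3 / 2 : ℝ)) (z := (1 : ℝ) + y) hθ (by norm_num) (by norm_num) (by norm_num)
          (by linarith) (by linarith)
          (by rw [show (23 / 20 : ℝ) / (3 / 2 : ℝ) = (23 / 30 : ℝ) by norm_num]; linarith)
          (by rw [show (3 / 2 : ℝ) / (3 / 2 : ℝ) = (1 : ℝ) by norm_num]; linarith)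
        linarith
      · have k := seg (θ := theta 5) (z0 := (3 / 2 : ℝ)) (c := (3 / 2 : ℝ)) (A := (13 / 6 : ℝ)) (B := (-7 / 4 : ℝ))
          (u := (3 / 2 : ℝ)) (v := (2 : ℝ)) (z := (1 : ℝ) + y) hθ (by norm_num) (by norm_num) (by norm_num)
          (by linarith) (by linarith)
          (by rw [show (3 / 2 : ℝ) / (3 / 2 : ℝ) = (1 : ℝ) by norm_num]; linarith)
          (by rw [show (2 : ℝ) / (3 / 2 : ℝ) = (4 / 3 : ℝ) by norm_num]; linarith)
        linarith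
  · norm_num only [Nat.cast_one, Nat.cast_ofNat]
    have e0 : (4 / 3 : ℝ) ^ theta 5 ≤ (251 / 144 : ℝ) :=
      big 17 10 (by norm_num) hi5 (by norm_num) (by norm_num) (by norm_num)
    have e1 : (2 : ℝ) ^ theta 5 ≤ (469 / 144 : ℝ) :=
      big 17 10 (by norm_num) hi5 (by norm_num) (by norm_num) (by norm_num)
    have k := seg (θ := theta 5) (z0 := (3 / 2 : ℝ)) (c := (3 / 2 : ℝ)) (A := (109 / 48 : ℝ)) (B := (-185 / 96 : ℝ))
      (u := (2 : ℝ)) (v := (3 : ℝ)) (z := (2 : ℝ) + y) hθ (by norm_num) (by norm_num) (by norm_num)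
      (by linarith) (by linarith)
      (by rw [show (2 : ℝ) / (3 / 2 : ℝ) = (4 / 3 : ℝ) by norm_num]; linarith)
      (by rw [show (3 : ℝ) / (3 / 2 : ℝ) = (2 : ℝ) by norm_num]; linarith)
    linarith
  · norm_num only [Nat.cast_one, Nat.cast_ofNat]
    have e0 : (2 : ℝ) ^ theta 5 ≤ (395 / 108 : ℝ) :=
      big 17 10 (by norm_num) hi5 (by norm_num) (by norm_num) (by norm_num)
    have e1 : (8 / 3 : ℝ) ^ theta 5 ≤ (613 / 108 : ℝ) :=
      big 17 10 (by norm_num) hi5 (by norm_num) (by norm_num) (by norm_num)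
    have k := seg (θ := theta 5) (z0 := (3 / 2 : ℝ)) (c := (3 / 2 : ℝ)) (A := (109 / 36 : ℝ)) (B := (-259 / 72 : ℝ))
      (u := (3 : ℝ)) (v := (4 : ℝ)) (z := (3 : ℝ) + y) hθ (by norm_num) (by norm_num) (by norm_num)
      (by linarith) (by linarith)
      (by rw [show (3 : ℝ) / (3 / 2 : ℝ) = (2 : ℝ) by norm_num]; linarith)
      (by rw [show (4 : ℝ) / (3 / 2 : ℝ) = (8 / 3 : ℝ) by norm_num]; linarith)
    linarith
  · norm_num only [Nat.cast_one, Nat.cast_ofNat]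
    have e0 : (8 / 3 : ℝ) ^ theta 5 ≤ (2695 / 432 : ℝ) :=
      big 17 10 (by norm_num) hi5 (by norm_num) (by norm_num) (by norm_num)
    have e1 : (10 / 3 : ℝ) ^ theta 5 ≤ (3785 / 432 : ℝ) :=
      big 17 10 (by norm_num) hi5 (by norm_num) (by norm_num) (by norm_num)
    have k := seg (θ := theta 5) (z0 := (3 / 2 : ℝ)) (c := (3 / 2 : ℝ)) (A := (545 / 144 : ℝ)) (B := (-185 / 32 : ℝ))
      (u := (4 : ℝ)) (v := (5 : ℝ)) (z := (4 : ℝ) + y) hθ (by norm_num) (by norm_num) (by norm_num)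
      (by linarith) (by linarith)
      (by rw [show (4 : ℝ) / (3 / 2 : ℝ) = (8 / 3 : ℝ) by norm_num]; linarith)
      (by rw [show (5 : ℝ) / (3 / 2 : ℝ) = (10 / 3 : ℝ) by norm_num]; linarith)
    linarith

/-- The region for `p = 7`. -/
def reg7 (y G : ℝ) : Prop :=
  0 ≤ y ∧ y ≤ 1 ∧ 0 ≤ G ∧ (153 / 256 : ℝ) * y + (-2001 / 25088 : ℝ) ≤ G ∧ (51 / 64 : ℝ) * y + (-135 / 896 : ℝ) ≤ G ∧ (313 / 384 : ℝ) * y + (-121 / 768 : ℝ) ≤ G ∧ (17 / 16 : ℝ) * y + (-9 / 32 : ℝ) ≤ G ∧ (21 / 16 : ℝ) * y + (-99 / 224 : ℝ) ≤ G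

theorem prime7 : Nat.Prime 7 := by norm_num

theorem CC7 : CC 7 = 28 := by norm_num [CC]

theorem step7 (a : ℕ) (ha : a < 7) (y G : ℝ) (h : reg7 y G) :
    reg7 ((a + y) / (7 : ℕ)) (((a : ℝ) * (a + 1) / 2 + (a + 1) * G) / CC 7) := by
  obtain ⟨h0, h1, h2, h3, h4, h5, h6, h7⟩ := h
  rw [CC7]
  unfold reg7
  interval_cases a <;> norm_num only [Nat.cast_zero, Nat.cast_one, Nat.cast_ofNat] <;>
    refine ⟨?_, ?_, ?_, ?_, ?_, ?_, ?_, ?_⟩ <;> linarith

theorem hi7 : theta 7 ≤ (12 : ℕ) / (7 : ℕ) :=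
  theta_le prime7 12 7 (by norm_num) (by rw [CC7]; norm_num)

theorem lo7 : ((17 : ℕ) : ℝ) / (10 : ℕ) ≤ theta 7 :=
  le_theta prime7 17 10 (by norm_num) (by rw [CC7]; norm_num)

theorem one7 : 1 ≤ theta 7 := by
  have := lo7
  norm_num at this
  linarith

theorem fin7 (a : ℕ) (ha1 : 1 ≤ a) (ha : a < 7) (y G : ℝ) (h : reg7 y G) :
    (3 / 2 : ℝ) * ((a + y) / (3 / 2 : ℝ)) ^ theta 7 ≤ (a : ℝ) * (a + 1) / 2 + (a + 1) * G := by
  obtain ⟨h0, h1, h2, h3, h4, h5, h6, h7⟩ := h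
  have hθ := one7
  interval_cases a
  · norm_num only [Nat.cast_one, Nat.cast_ofNat]
    have e0 : (2 / 3 : ℝ) ^ theta 7 ≤ (10543 / 18816 : ℝ) :=
      small 17 10 (by norm_num) lo7 (by norm_num) (by norm_num) (by norm_num) (by norm_num)
    have e1 : (8 / 9 : ℝ) ^ theta 7 ≤ (1415 / 1728 : ℝ) :=
      small 17 10 (by norm_num) lo7 (by norm_num) (by norm_num) (by norm_num) (by norm_num)
    have e2 : (1 : ℝ) ^ theta 7 ≤ 1 := by rw [Real.one_rpow]
    have e3 : (4 / 3 : ℝ) ^ theta 7 ≤ (41 / 24 : ℝ) :=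
      big 12 7 (by norm_num) hi7 (by norm_num) (by norm_num) (by norm_num)
    rcases le_total y (1 / 3 : ℝ) with hy0 | hy0
    · have k := seg (θ := theta 7) (z0 := (3 / 2 : ℝ)) (c := (3 / 2 : ℝ)) (A := (153 / 128 : ℝ)) (B := (-4451 / 12544 : ℝ))
        (u := (1 : ℝ)) (v := (4 / 3 : ℝ)) (z := (1 : ℝ) + y) hθ (by norm_num) (by norm_num) (by norm_num)
        (by linarith) (by linarith)
        (by rw [show (1 : ℝ) / (3 / 2 : ℝ) = (2 / 3 : ℝ) by norm_num]; linarith)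
        (by rw [show (4 / 3 : ℝ) / (3 / 2 : ℝ) = (8 / 9 : ℝ) by norm_num]; linarith)
      linarith
    · rcases le_total y (1 / 2 : ℝ) with hy1 | hy1
      · have k := seg (θ := theta 7) (z0 := (3 / 2 : ℝ)) (c := (3 / 2 : ℝ)) (A := (313 / 192 : ℝ)) (B := (-121 / 128 : ℝ))
          (u := (4 / 3 : ℝ)) (v := (3 / 2 : ℝ)) (z := (1 : ℝ) + y) hθ (by norm_num) (by norm_num) (by norm_num)
          (by linarith) (by linarith)
          (by rw [show (4 / 3 : ℝ) / (3 / 2 : ℝ) = (8 / 9 : ℝ) by norm_num]; linarith)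
          (by rw [show (3 / 2 : ℝ) / (3 / 2 : ℝ) = (1 : ℝ) by norm_num]; linarith)
        linarith
      · have k := seg (θ := theta 7) (z0 := (3 / 2 : ℝ)) (c := (3 / 2 : ℝ)) (A := (17 / 8 : ℝ)) (B := (-27 / 16 : ℝ))
          (u := (3 / 2 : ℝ)) (v := (2 : ℝ)) (z := (1 : ℝ) + y) hθ (by norm_num) (by norm_num) (by norm_num)
          (by linarith) (by linarith)
          (by rw [show (3 / 2 : ℝ) / (3 / 2 : ℝ) = (1 : ℝ) by norm_num]; linarith)
          (by rw [show (2 : ℝ) / (3 / 2 : ℝ) = (4 / 3 : ℝ) by norm_num]; linarith)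
        linarith
  · norm_num only [Nat.cast_one, Nat.cast_ofNat]
    have e0 : (4 / 3 : ℝ) ^ theta 7 ≤ (761 / 448 : ℝ) :=
      big 12 7 (by norm_num) hi7 (by norm_num) (by norm_num) (by norm_num)
    have e1 : (2 : ℝ) ^ theta 7 ≤ (1475 / 448 : ℝ) :=
      big 12 7 (by norm_num) hi7 (by norm_num) (by norm_num) (by norm_num)
    have k := seg (θ := theta 7) (z0 := (3 / 2 : ℝ)) (c := (3 / 2 : ℝ)) (A := (153 / 64 : ℝ)) (B := (-2001 / 896 : ℝ))
      (u := (2 : ℝ)) (v := (3 : ℝ)) (z := (2 : ℝ) + y) hθ (by norm_num) (by norm_num) (by norm_num)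
      (by linarith) (by linarith)
      (by rw [show (2 : ℝ) / (3 / 2 : ℝ) = (4 / 3 : ℝ) by norm_num]; linarith)
      (by rw [show (3 : ℝ) / (3 / 2 : ℝ) = (2 : ℝ) by norm_num]; linarith)
    linarith
  · norm_num only [Nat.cast_one, Nat.cast_ofNat]
    have e0 : (2 : ℝ) ^ theta 7 ≤ (11877 / 3136 : ℝ) :=
      big 12 7 (by norm_num) hi7 (by norm_num) (by norm_num) (by norm_num)
    have e1 : (8 / 3 : ℝ) ^ theta 7 ≤ (16875 / 3136 : ℝ) :=
      big 12 7 (by norm_num) hi7 (by norm_num) (by norm_num) (by norm_num)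
    have k := seg (θ := theta 7) (z0 := (3 / 2 : ℝ)) (c := (3 / 2 : ℝ)) (A := (153 / 64 : ℝ)) (B := (-9351 / 6272 : ℝ))
      (u := (3 : ℝ)) (v := (4 : ℝ)) (z := (3 : ℝ) + y) hθ (by norm_num) (by norm_num) (by norm_num)
      (by linarith) (by linarith)
      (by rw [show (3 : ℝ) / (3 / 2 : ℝ) = (2 : ℝ) by norm_num]; linarith)
      (by rw [show (4 : ℝ) / (3 / 2 : ℝ) = (8 / 3 : ℝ) by norm_num]; linarith)
    linarith
  · norm_num only [Nat.cast_one, Nat.cast_ofNat]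
    have e0 : (8 / 3 : ℝ) ^ theta 7 ≤ (240875 / 37632 : ℝ) :=
      big 12 7 (by norm_num) hi7 (by norm_num) (by norm_num) (by norm_num)
    have e1 : (10 / 3 : ℝ) ^ theta 7 ≤ (315845 / 37632 : ℝ) :=
      big 12 7 (by norm_num) hi7 (by norm_num) (by norm_num) (by norm_num)
    have k := seg (θ := theta 7) (z0 := (3 / 2 : ℝ)) (c := (3 / 2 : ℝ)) (A := (765 / 256 : ℝ)) (B := (-59005 / 25088 : ℝ))
      (u := (4 : ℝ)) (v := (5 : ℝ)) (z := (4 : ℝ) + y) hθ (by norm_num) (by norm_num) (by norm_num)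
      (by linarith) (by linarith)
      (by rw [show (4 : ℝ) / (3 / 2 : ℝ) = (8 / 3 : ℝ) by norm_num]; linarith)
      (by rw [show (5 : ℝ) / (3 / 2 : ℝ) = (10 / 3 : ℝ) by norm_num]; linarith)
    linarith
  · norm_num only [Nat.cast_one, Nat.cast_ofNat]
    have e0 : (10 / 3 : ℝ) ^ theta 7 ≤ (60719 / 6272 : ℝ) :=
      big 12 7 (by norm_num) hi7 (by norm_num) (by norm_num) (by norm_num)
    have e1 : (4 : ℝ) ^ theta 7 ≤ (75713 / 6272 : ℝ) :=
      big 12 7 (by norm_num) hi7 (by norm_num) (by norm_num) (by norm_num)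
    have k := seg (θ := theta 7) (z0 := (3 / 2 : ℝ)) (c := (3 / 2 : ℝ)) (A := (459 / 128 : ℝ)) (B := (-42753 / 12544 : ℝ))
      (u := (5 : ℝ)) (v := (6 : ℝ)) (z := (5 : ℝ) + y) hθ (by norm_num) (by norm_num) (by norm_num)
      (by linarith) (by linarith)
      (by rw [show (5 : ℝ) / (3 / 2 : ℝ) = (10 / 3 : ℝ) by norm_num]; linarith)
      (by rw [show (6 : ℝ) / (3 / 2 : ℝ) = (4 : ℝ) by norm_num]; linarith)
    linarith
  · norm_num only [Nat.cast_one, Nat.cast_ofNat]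
    have e0 : (4 : ℝ) ^ theta 7 ≤ (24421 / 1792 : ℝ) :=
      big 12 7 (by norm_num) hi7 (by norm_num) (by norm_num) (by norm_num)
    have e1 : (14 / 3 : ℝ) ^ theta 7 ≤ (29419 / 1792 : ℝ) :=
      big 12 7 (by norm_num) hi7 (by norm_num) (by norm_num) (by norm_num)
    have k := seg (θ := theta 7) (z0 := (3 / 2 : ℝ)) (c := (3 / 2 : ℝ)) (A := (1071 / 256 : ℝ)) (B := (-16701 / 3584 : ℝ))
      (u := (6 : ℝ)) (v := (7 : ℝ)) (z := (6 : ℝ) + y) hθ (by norm_num) (by norm_num) (by norm_num)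
      (by linarith) (by linarith)
      (by rw [show (6 : ℝ) / (3 / 2 : ℝ) = (4 : ℝ) by norm_num]; linarith)
      (by rw [show (7 : ℝ) / (3 / 2 : ℝ) = (14 / 3 : ℝ) by norm_num]; linarith)
    linarith

/-- The region for `p = 11`. -/
def reg11 (y G : ℝ) : Prop :=
  0 ≤ y ∧ y ≤ 1 ∧ 0 ≤ G ∧ (1261 / 1728 : ℝ) * y + (-541 / 4224 : ℝ) ≤ G ∧ (125 / 144 : ℝ) * y + (-65 / 352 : ℝ) ≤ G ∧ (1261 / 1440 : ℝ) * y + (-541 / 2880 : ℝ) ≤ G ∧ (25 / 24 : ℝ) * y + (-13 / 48 : ℝ) ≤ G ∧ (29 / 24 : ℝ) * y + (-65 / 176 : ℝ) ≤ G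

theorem prime11 : Nat.Prime 11 := by norm_num

theorem CC11 : CC 11 = 66 := by norm_num [CC]

theorem step11 (a : ℕ) (ha : a < 11) (y G : ℝ) (h : reg11 y G) :
    reg11 ((a + y) / (11 : ℕ)) (((a : ℝ) * (a + 1) / 2 + (a + 1) * G) / CC 11) := by
  obtain ⟨h0, h1, h2, h3, h4, h5, h6, h7⟩ := h
  rw [CC11]
  unfold reg11
  interval_cases a <;> norm_num only [Nat.cast_zero, Nat.cast_one, Nat.cast_ofNat] <;>
    refine ⟨?_, ?_, ?_, ?_, ?_, ?_, ?_, ?_⟩ <;> linarith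

theorem hi11 : theta 11 ≤ (7 : ℕ) / (4 : ℕ) :=
  theta_le prime11 7 4 (by norm_num) (by rw [CC11]; norm_num)

theorem lo11 : ((19 : ℕ) : ℝ) / (11 : ℕ) ≤ theta 11 :=
  le_theta prime11 19 11 (by norm_num) (by rw [CC11]; norm_num)

theorem one11 : 1 ≤ theta 11 := by
  have := lo11
  norm_num at this
  linarith

theorem fin11 (a : ℕ) (ha1 : 1 ≤ a) (ha : a < 11) (y G : ℝ) (h : reg11 y G) :
    (59 / 44 : ℝ) * ((a + y) / (31 / 22 : ℝ)) ^ theta 11 ≤ (a : ℝ) * (a + 1) / 2 + (a + 1) * G := by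
  obtain ⟨h0, h1, h2, h3, h4, h5, h6, h7⟩ := h
  have hθ := one11
  interval_cases a
  · norm_num only [Nat.cast_one, Nat.cast_ofNat]
    have e0 : (22 / 31 : ℝ) ^ theta 11 ≤ (1571 / 2832 : ℝ) :=
      small 19 11 (by norm_num) lo11 (by norm_num) (by norm_num) (by norm_num) (by norm_num)
    have e1 : (1 : ℝ) ^ theta 11 ≤ 1 := by rw [Real.one_rpow]
    have e2 : (11 / 10 : ℝ) ^ theta 11 ≤ (5023 / 4248 : ℝ) :=
      big 7 4 (by norm_num) hi11 (by norm_num) (by norm_num) (by norm_num)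
    have e3 : (44 / 31 : ℝ) ^ theta 11 ≤ (671 / 354 : ℝ) :=
      big 7 4 (by norm_num) hi11 (by norm_num) (by norm_num) (by norm_num)
    rcases le_total y (9 / 22 : ℝ) with hy0 | hy0
    · have k := seg (θ := theta 11) (z0 := (31 / 22 : ℝ)) (c := (59 / 44 : ℝ)) (A := (1261 / 864 : ℝ)) (B := (-13603 / 19008 : ℝ))
        (u := (1 : ℝ)) (v := (31 / 22 : ℝ)) (z := (1 : ℝ) + y) hθ (by norm_num) (by norm_num) (by norm_num)
        (by linarith) (by linarith)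
        (by rw [show (1 : ℝ) / (31 / 22 : ℝ) = (22 / 31 : ℝ) by norm_num]; linarith)
        (by rw [show (31 / 22 : ℝ) / (31 / 22 : ℝ) = (1 : ℝ) by norm_num]; linarith)
      linarith
    · rcases le_total y (11 / 20 : ℝ) with hy1 | hy1
      · have k := seg (θ := theta 11) (z0 := (31 / 22 : ℝ)) (c := (59 / 44 : ℝ)) (A := (125 / 72 : ℝ)) (B := (-1751 / 1584 : ℝ))
          (u := (31 / 22 : ℝ)) (v := (31 / 20 : ℝ)) (z := (1 : ℝ) + y) hθ (by norm_num) (by norm_num) (by norm_num)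
          (by linarith) (by linarith)
          (by rw [show (31 / 22 : ℝ) / (31 / 22 : ℝ) = (1 : ℝ) by norm_num]; linarith)
          (by rw [show (31 / 20 : ℝ) / (31 / 22 : ℝ) = (11 / 10 : ℝ) by norm_num]; linarith)
        linarith
      · have k := seg (θ := theta 11) (z0 := (31 / 22 : ℝ)) (c := (59 / 44 : ℝ)) (A := (25 / 12 : ℝ)) (B := (-13 / 8 : ℝ))
          (u := (31 / 20 : ℝ)) (v := (2 : ℝ)) (z := (1 : ℝ) + y) hθ (by norm_num) (by norm_num) (by norm_num)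
          (by linarith) (by linarith)
          (by rw [show (31 / 20 : ℝ) / (31 / 22 : ℝ) = (11 / 10 : ℝ) by norm_num]; linarith)
          (by rw [show (2 : ℝ) / (31 / 22 : ℝ) = (44 / 31 : ℝ) by norm_num]; linarith)
        linarith
  · norm_num only [Nat.cast_one, Nat.cast_ofNat]
    have e0 : (44 / 31 : ℝ) ^ theta 11 ≤ (3683 / 1888 : ℝ) :=
      big 7 4 (by norm_num) hi11 (by norm_num) (by norm_num) (by norm_num)
    have e1 : (286 / 155 : ℝ) ^ theta 11 ≤ (82987 / 28320 : ℝ) :=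
      big 7 4 (by norm_num) hi11 (by norm_num) (by norm_num) (by norm_num)
    have e2 : (66 / 31 : ℝ) ^ theta 11 ≤ (5333 / 1416 : ℝ) :=
      big 7 4 (by norm_num) hi11 (by norm_num) (by norm_num) (by norm_num)
    rcases le_total y (3 / 5 : ℝ) with hy0 | hy0
    · have k := seg (θ := theta 11) (z0 := (31 / 22 : ℝ)) (c := (59 / 44 : ℝ)) (A := (1261 / 576 : ℝ)) (B := (-22337 / 12672 : ℝ))
        (u := (2 : ℝ)) (v := (13 / 5 : ℝ)) (z := (2 : ℝ) + y) hθ (by norm_num) (by norm_num) (by norm_num)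
        (by linarith) (by linarith)
        (by rw [show (2 : ℝ) / (31 / 22 : ℝ) = (44 / 31 : ℝ) by norm_num]; linarith)
        (by rw [show (13 / 5 : ℝ) / (31 / 22 : ℝ) = (286 / 155 : ℝ) by norm_num]; linarith)
      linarith
    · have k := seg (θ := theta 11) (z0 := (31 / 22 : ℝ)) (c := (59 / 44 : ℝ)) (A := (125 / 48 : ℝ)) (B := (-2917 / 1056 : ℝ))
        (u := (13 / 5 : ℝ)) (v := (3 : ℝ)) (z := (2 : ℝ) + y) hθ (by norm_num) (by norm_num) (by norm_num)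
        (by linarith) (by linarith)
        (by rw [show (13 / 5 : ℝ) / (31 / 22 : ℝ) = (286 / 155 : ℝ) by norm_num]; linarith)
        (by rw [show (3 : ℝ) / (31 / 22 : ℝ) = (66 / 31 : ℝ) by norm_num]; linarith)
      linarith
  · norm_num only [Nat.cast_one, Nat.cast_ofNat]
    have e0 : (66 / 31 : ℝ) ^ theta 11 ≤ (5795 / 1416 : ℝ) :=
      big 7 4 (by norm_num) hi11 (by norm_num) (by norm_num) (by norm_num)
    have e1 : (88 / 31 : ℝ) ^ theta 11 ≤ (79897 / 12744 : ℝ) :=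
      big 7 4 (by norm_num) hi11 (by norm_num) (by norm_num) (by norm_num)
    have k := seg (θ := theta 11) (z0 := (31 / 22 : ℝ)) (c := (59 / 44 : ℝ)) (A := (1261 / 432 : ℝ)) (B := (-10357 / 3168 : ℝ))
      (u := (3 : ℝ)) (v := (4 : ℝ)) (z := (3 : ℝ) + y) hθ (by norm_num) (by norm_num) (by norm_num)
      (by linarith) (by linarith)
      (by rw [show (3 : ℝ) / (31 / 22 : ℝ) = (66 / 31 : ℝ) by norm_num]; linarith)
      (by rw [show (4 : ℝ) / (31 / 22 : ℝ) = (88 / 31 : ℝ) by norm_num]; linarith)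
    linarith
  · norm_num only [Nat.cast_one, Nat.cast_ofNat]
    have e0 : (88 / 31 : ℝ) ^ theta 11 ≤ (39535 / 5664 : ℝ) :=
      big 7 4 (by norm_num) hi11 (by norm_num) (by norm_num) (by norm_num)
    have e1 : (110 / 31 : ℝ) ^ theta 11 ≤ (494525 / 50976 : ℝ) :=
      big 7 4 (by norm_num) hi11 (by norm_num) (by norm_num) (by norm_num)
    have k := seg (θ := theta 11) (z0 := (31 / 22 : ℝ)) (c := (59 / 44 : ℝ)) (A := (6305 / 1728 : ℝ)) (B := (-199025 / 38016 : ℝ))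
      (u := (4 : ℝ)) (v := (5 : ℝ)) (z := (4 : ℝ) + y) hθ (by norm_num) (by norm_num) (by norm_num)
      (by linarith) (by linarith)
      (by rw [show (4 : ℝ) / (31 / 22 : ℝ) = (88 / 31 : ℝ) by norm_num]; linarith)
      (by rw [show (5 : ℝ) / (31 / 22 : ℝ) = (110 / 31 : ℝ) by norm_num]; linarith)
    linarith
  · norm_num only [Nat.cast_one, Nat.cast_ofNat]
    have e0 : (110 / 31 : ℝ) ^ theta 11 ≤ (10019 / 944 : ℝ) :=
      big 7 4 (by norm_num) hi11 (by norm_num) (by norm_num) (by norm_num)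
    have e1 : (132 / 31 : ℝ) ^ theta 11 ≤ (117913 / 8496 : ℝ) :=
      big 7 4 (by norm_num) hi11 (by norm_num) (by norm_num) (by norm_num)
    have k := seg (θ := theta 11) (z0 := (31 / 22 : ℝ)) (c := (59 / 44 : ℝ)) (A := (1261 / 288 : ℝ)) (B := (-48539 / 6336 : ℝ))
      (u := (5 : ℝ)) (v := (6 : ℝ)) (z := (5 : ℝ) + y) hθ (by norm_num) (by norm_num) (by norm_num)
      (by linarith) (by linarith)
      (by rw [show (5 : ℝ) / (31 / 22 : ℝ) = (110 / 31 : ℝ) by norm_num]; linarith)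
      (by rw [show (6 : ℝ) / (31 / 22 : ℝ) = (132 / 31 : ℝ) by norm_num]; linarith)
    linarith
  · norm_num only [Nat.cast_one, Nat.cast_ofNat]
    have e0 : (132 / 31 : ℝ) ^ theta 11 ≤ (84917 / 5664 : ℝ) :=
      big 7 4 (by norm_num) hi11 (by norm_num) (by norm_num) (by norm_num)
    have e1 : (154 / 31 : ℝ) ^ theta 11 ≤ (958447 / 50976 : ℝ) :=
      big 7 4 (by norm_num) hi11 (by norm_num) (by norm_num) (by norm_num)
    have k := seg (θ := theta 11) (z0 := (31 / 22 : ℝ)) (c := (59 / 44 : ℝ)) (A := (8827 / 1728 : ℝ)) (B := (-133637 / 12672 : ℝ))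
      (u := (6 : ℝ)) (v := (7 : ℝ)) (z := (6 : ℝ) + y) hθ (by norm_num) (by norm_num) (by norm_num)
      (by linarith) (by linarith)
      (by rw [show (6 : ℝ) / (31 / 22 : ℝ) = (132 / 31 : ℝ) by norm_num]; linarith)
      (by rw [show (7 : ℝ) / (31 / 22 : ℝ) = (154 / 31 : ℝ) by norm_num]; linarith)
    linarith
  · norm_num only [Nat.cast_one, Nat.cast_ofNat]
    have e0 : (154 / 31 : ℝ) ^ theta 11 ≤ (14243 / 708 : ℝ) :=
      big 7 4 (by norm_num) hi11 (by norm_num) (by norm_num) (by norm_num)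
    have e1 : (176 / 31 : ℝ) ^ theta 11 ≤ (155929 / 6372 : ℝ) :=
      big 7 4 (by norm_num) hi11 (by norm_num) (by norm_num) (by norm_num)
    have k := seg (θ := theta 11) (z0 := (31 / 22 : ℝ)) (c := (59 / 44 : ℝ)) (A := (1261 / 216 : ℝ)) (B := (-66007 / 4752 : ℝ))
      (u := (7 : ℝ)) (v := (8 : ℝ)) (z := (7 : ℝ) + y) hθ (by norm_num) (by norm_num) (by norm_num)
      (by linarith) (by linarith)
      (by rw [show (7 : ℝ) / (31 / 22 : ℝ) = (154 / 31 : ℝ) by norm_num]; linarith)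
      (by rw [show (8 : ℝ) / (31 / 22 : ℝ) = (176 / 31 : ℝ) by norm_num]; linarith)
    linarith
  · norm_num only [Nat.cast_one, Nat.cast_ofNat]
    have e0 : (176 / 31 : ℝ) ^ theta 11 ≤ (1584 / 59 : ℝ) :=
      big 7 4 (by norm_num) hi11 (by norm_num) (by norm_num) (by norm_num)
    have e1 : (198 / 31 : ℝ) ^ theta 11 ≤ (1584 / 59 : ℝ) :=
      big 7 4 (by norm_num) hi11 (by norm_num) (by norm_num) (by norm_num)
    have k := seg (θ := theta 11) (z0 := (31 / 22 : ℝ)) (c := (59 / 44 : ℝ)) (A := (0 : ℝ)) (B := (36 : ℝ))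
      (u := (8 : ℝ)) (v := (9 : ℝ)) (z := (8 : ℝ) + y) hθ (by norm_num) (by norm_num) (by norm_num)
      (by linarith) (by linarith)
      (by rw [show (8 : ℝ) / (31 / 22 : ℝ) = (176 / 31 : ℝ) by norm_num]; linarith)
      (by rw [show (9 : ℝ) / (31 / 22 : ℝ) = (198 / 31 : ℝ) by norm_num]; linarith)
    linarith
  · norm_num only [Nat.cast_one, Nat.cast_ofNat]
    have e0 : (198 / 31 : ℝ) ^ theta 11 ≤ (1980 / 59 : ℝ) :=
      big 7 4 (by norm_num) hi11 (by norm_num) (by norm_num) (by norm_num)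
    have e1 : (220 / 31 : ℝ) ^ theta 11 ≤ (1980 / 59 : ℝ) :=
      big 7 4 (by norm_num) hi11 (by norm_num) (by norm_num) (by norm_num)
    have k := seg (θ := theta 11) (z0 := (31 / 22 : ℝ)) (c := (59 / 44 : ℝ)) (A := (0 : ℝ)) (B := (45 : ℝ))
      (u := (9 : ℝ)) (v := (10 : ℝ)) (z := (9 : ℝ) + y) hθ (by norm_num) (by norm_num) (by norm_num)
      (by linarith) (by linarith)
      (by rw [show (9 : ℝ) / (31 / 22 : ℝ) = (198 / 31 : ℝ) by norm_num]; linarith)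
      (by rw [show (10 : ℝ) / (31 / 22 : ℝ) = (220 / 31 : ℝ) by norm_num]; linarith)
    linarith
  · norm_num only [Nat.cast_one, Nat.cast_ofNat]
    have e0 : (220 / 31 : ℝ) ^ theta 11 ≤ (2420 / 59 : ℝ) :=
      big 7 4 (by norm_num) hi11 (by norm_num) (by norm_num) (by norm_num)
    have e1 : (242 / 31 : ℝ) ^ theta 11 ≤ (2420 / 59 : ℝ) :=
      big 7 4 (by norm_num) hi11 (by norm_num) (by norm_num) (by norm_num)
    have k := seg (θ := theta 11) (z0 := (31 / 22 : ℝ)) (c := (59 / 44 : ℝ)) (A := (0 : ℝ)) (B := (55 : ℝ))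
      (u := (10 : ℝ)) (v := (11 : ℝ)) (z := (10 : ℝ) + y) hθ (by norm_num) (by norm_num) (by norm_num)
      (by linarith) (by linarith)
      (by rw [show (10 : ℝ) / (31 / 22 : ℝ) = (220 / 31 : ℝ) by norm_num]; linarith)
      (by rw [show (11 : ℝ) / (31 / 22 : ℝ) = (242 / 31 : ℝ) by norm_num]; linarith)
    linarith

end Pool.Agent.R308.Pascal
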