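import Pool.Agent.R308.PascalBase

/-! Real analysis part: closed regions, the lower bound, the subsequence. -/

namespace Pool.Agent.R308.Pascal

open Finset Filter

noncomputable section

/-- `p(p+1)/2`. -/
def CC (p : ℕ) : ℝ := (p : ℝ) * (p + 1) / 2

/-- The growth exponent. -/
def theta (p : ℕ) : ℝ := Real.log ((p : ℝ) * (p + 1) / 2) / Real.log p

theorem CC_pos {p : ℕ} (hp : p.Prime) : 0 < CC p := by
  have : (0 : ℝ) < p := by exact_mod_cast hp.pos
  unfold CC; positivity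

theorem cnt_real {p : ℕ} (hp : p.Prime) (n k m : ℕ) (hm : m ≤ p ^ k) :
    (cnt p (n * p ^ k + m) : ℝ) = CC p ^ k * cnt p n + row p n * cnt p m := by
  rw [cnt_add hp n k m hm]
  push_cast
  congr 1
  have h := cnt_mul_pow hp n k
  have h2 : (2 : ℝ) ^ k * cnt p (n * p ^ k) = ((p : ℝ) * (p + 1)) ^ k * cnt p n := by
    exact_mod_cast h
  have h3 : CC p ^ k = ((p : ℝ) * (p + 1)) ^ k / 2 ^ k := by
    rw [CC, div_pow]
  rw [h3]
  field_simp
  linarith

theorem cnt_small_real {p a : ℕ} (hp : p.Prime) (ha : a ≤ p) :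
    (cnt p a : ℝ) = (a : ℝ) * (a + 1) / 2 := by
  have h := cnt_small hp ha
  have h2 : (2 : ℝ) * cnt p a = (a : ℝ) * (a + 1) := by exact_mod_cast h
  linarith

/-- A region of the plane closed under the `p` digit maps contains all the points
`(m / p^k, cnt m / C^k)`. -/
theorem region {p : ℕ} (hp : p.Prime) (P : ℝ → ℝ → Prop) (h0 : P 0 0) (h1 : P 1 1)
    (hstep : ∀ a : ℕ, a < p → ∀ y G : ℝ, P y G →
      P ((a + y) / p) (((a : ℝ) * (a + 1) / 2 + (a + 1) * G) / CC p)) (k : ℕ) :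
    ∀ m : ℕ, m ≤ p ^ k → P ((m : ℝ) / p ^ k) ((cnt p m : ℝ) / CC p ^ k) := by
  have hpp : (p : ℝ) ≠ 0 := by exact_mod_cast hp.pos.ne'
  have hC : CC p ≠ 0 := (CC_pos hp).ne'
  induction k with
  | zero =>
    intro m hm
    have hm' : m = 0 ∨ m = 1 := by
      have : m ≤ 1 := by simpa using hm
      omega
    rcases hm' with rfl | rfl
    · simpa [cnt] using h0
    · have : cnt p 1 = 1 := by
        have := cnt_small hp hp.one_lt.le
        omega
      simpa [this] using h1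
  | succ k ih =>
    intro m hm
    obtain ⟨a, j, ha, hj, rfl⟩ : ∃ a j, a < p ∧ j ≤ p ^ k ∧ a * p ^ k + j = m := by
      rcases lt_or_eq_of_le hm with h | h
      · refine ⟨m / p ^ k, m % p ^ k, ?_, (Nat.mod_lt _ (pow_pos hp.pos k)).le, ?_⟩
        · rw [Nat.div_lt_iff_lt_mul (pow_pos hp.pos k)]
          rw [pow_succ] at h; linarith [mul_comm p (p ^ k)]
        · rw [mul_comm]; exact Nat.div_add_mod m (p ^ k)
      · refine ⟨p - 1, p ^ k, by have := hp.pos; omega, le_rfl, ?_⟩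
        have h1 : p - 1 + 1 = p := Nat.succ_pred_eq_of_pos hp.pos
        calc (p - 1) * p ^ k + p ^ k = (p - 1 + 1) * p ^ k := by ring
          _ = m := by rw [h1, h]; ring
    have key := hstep a ha _ _ (ih j hj)
    rw [cnt_real hp a k j hj, cnt_small_real hp ha.le, row_small hp ha]
    have e1 : (((a * p ^ k + j : ℕ) : ℝ)) / (p : ℝ) ^ (k + 1) = (a + (j : ℝ) / p ^ k) / p := by
      push_cast; rw [pow_succ]; field_simp
    have e2 : (CC p ^ k * ((a : ℝ) * (a + 1) / 2) + ((a + 1 : ℕ) : ℝ) * cnt p j) / CC p ^ (k + 1)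
        = ((a : ℝ) * (a + 1) / 2 + (a + 1) * ((cnt p j : ℝ) / CC p ^ k)) / CC p := by
      push_cast; rw [pow_succ]; field_simp
    rw [e1, e2]
    exact key

theorem pow_theta {p : ℕ} (hp : p.Prime) (k : ℕ) : ((p : ℝ) ^ k) ^ theta p = CC p ^ k := by
  have hp1 : (1 : ℝ) < p := by exact_mod_cast hp.one_lt
  have hlog : Real.log p ≠ 0 := (Real.log_pos hp1).ne'
  have h1 : (p : ℝ) ^ theta p = CC p := by
    rw [Real.rpow_def_of_pos (by linarith), theta, mul_div_cancel₀ _ hlog]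
    exact Real.exp_log (CC_pos hp)
  rw [← Real.rpow_natCast, ← Real.rpow_mul (by linarith), mul_comm, Real.rpow_mul (by linarith), h1,
    Real.rpow_natCast]

/-- Global lower bound from the region and a check for the leading digit. -/
theorem lower {p : ℕ} (hp : p.Prime) (P : ℝ → ℝ → Prop) (h0 : P 0 0) (h1 : P 1 1)
    (hstep : ∀ a : ℕ, a < p → ∀ y G : ℝ, P y G →
      P ((a + y) / p) (((a : ℝ) * (a + 1) / 2 + (a + 1) * G) / CC p)) (c z0 : ℝ) (hz0 : 0 < z0)
    (hfin : ∀ a : ℕ, 1 ≤ a → a < p → ∀ y G : ℝ, P y G →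
      c * ((a + y) / z0) ^ theta p ≤ (a : ℝ) * (a + 1) / 2 + (a + 1) * G) (n : ℕ) (hn : 1 ≤ n) :
    c / z0 ^ theta p ≤ (cnt p n : ℝ) * (n : ℝ) ^ (-theta p) := by
  obtain ⟨k, a, j, ha1, ha, hj, rfl⟩ : ∃ k a j, 1 ≤ a ∧ a < p ∧ j < p ^ k ∧ a * p ^ k + j = n := by
    refine ⟨Nat.log p n, n / p ^ Nat.log p n, n % p ^ Nat.log p n, ?_, ?_,
      Nat.mod_lt _ (pow_pos hp.pos _), ?_⟩
    · rw [Nat.one_le_div_iff (pow_pos hp.pos _)]
      exact Nat.pow_log_le_self p (by omega)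
    · rw [Nat.div_lt_iff_lt_mul (pow_pos hp.pos _), ← pow_succ']
      exact Nat.lt_pow_succ_log_self hp.one_lt n
    · rw [mul_comm]; exact Nat.div_add_mod n _
  have hreg := region hp P h0 h1 hstep k j hj.le
  have hf := hfin a ha1 ha _ _ hreg
  have hpk : (0 : ℝ) < (p : ℝ) ^ k := by
    have : (0 : ℝ) < p := by exact_mod_cast hp.pos
    positivity
  have hCk : 0 < CC p ^ k := pow_pos (CC_pos hp) k
  set y : ℝ := (j : ℝ) / p ^ k with hy
  have hy0 : 0 ≤ y := by positivity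
  have ha0 : (1 : ℝ) ≤ a := by exact_mod_cast ha1
  have e1 : ((a * p ^ k + j : ℕ) : ℝ) = (p : ℝ) ^ k * (a + y) := by
    rw [hy]; push_cast; field_simp
  have e2 : (cnt p (a * p ^ k + j) : ℝ) = CC p ^ k *
      ((a : ℝ) * (a + 1) / 2 + (a + 1) * ((cnt p j : ℝ) / CC p ^ k)) := by
    rw [cnt_real hp a k j hj.le, cnt_small_real hp ha.le, row_small hp ha]
    push_cast; field_simp
  rw [e1, e2, Real.rpow_neg (by positivity), Real.mul_rpow hpk.le (by positivity), pow_theta hp]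
  rw [Real.div_rpow (by positivity) hz0.le] at hf
  have hz : 0 < z0 ^ theta p := Real.rpow_pos_of_pos hz0 _
  have hay : 0 < ((a : ℝ) + y) ^ theta p := Real.rpow_pos_of_pos (by positivity) _
  rw [← div_eq_mul_inv, mul_div_mul_left _ _ hCk.ne', div_le_div_iff₀ hz hay]
  have h5 := mul_le_mul_of_nonneg_right hf hz.le
  calc c * ((a : ℝ) + y) ^ theta p
      = c * (((a : ℝ) + y) ^ theta p / z0 ^ theta p) * z0 ^ theta p := by field_simp
    _ ≤ _ := h5

/-- Convexity on a segment. -/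
theorem seg {θ z0 c A B u v z : ℝ} (hθ : 1 ≤ θ) (hc : 0 ≤ c) (hz0 : 0 < z0) (hu : 0 ≤ u)
    (huz : u ≤ z) (hzv : z ≤ v) (hA : c * (u / z0) ^ θ ≤ A * u + B)
    (hB : c * (v / z0) ^ θ ≤ A * v + B) : c * (z / z0) ^ θ ≤ A * z + B := by
  rcases eq_or_lt_of_le (huz.trans hzv) with h | h
  · have : z = u := le_antisymm (by rw [h]; exact hzv) huz
    rwa [this]
  have hcv := convexOn_rpow hθ
  have hvu : 0 < v - u := by linarith
  set s : ℝ := (v - z) / (v - u) with hs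
  set t : ℝ := (z - u) / (v - u) with ht
  have hs0 : 0 ≤ s := div_nonneg (by linarith) hvu.le
  have ht0 : 0 ≤ t := div_nonneg (by linarith) hvu.le
  have hst : s + t = 1 := by rw [hs, ht]; field_simp; ring
  have hz : s * u + t * v = z := by rw [hs, ht]; field_simp; ring
  have hu' : u / z0 ∈ Set.Ici (0 : ℝ) := div_nonneg hu hz0.le
  have hv' : v / z0 ∈ Set.Ici (0 : ℝ) := div_nonneg (by linarith) hz0.le
  have h2 := hcv.2 hu' hv' hs0 ht0 hst
  simp only [smul_eq_mul] at h2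
  have e : s * (u / z0) + t * (v / z0) = z / z0 := by rw [← hz]; ring
  rw [e] at h2
  calc c * (z / z0) ^ θ ≤ c * (s * (u / z0) ^ θ + t * (v / z0) ^ θ) :=
        mul_le_mul_of_nonneg_left h2 hc
    _ = s * (c * (u / z0) ^ θ) + t * (c * (v / z0) ^ θ) := by ring
    _ ≤ s * (A * u + B) + t * (A * v + B) :=
        add_le_add (mul_le_mul_of_nonneg_left hA hs0) (mul_le_mul_of_nonneg_left hB ht0)
    _ = A * (s * u + t * v) + (s + t) * B := by ring
    _ = A * z + B := by rw [hz, hst]; ring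

theorem rpow_le_of {w r θ q : ℝ} (hw : 0 ≤ w) (hr : 0 ≤ r) (P Q : ℕ) (hQ : Q ≠ 0)
    (hq : q = P / Q) (h : w ^ P ≤ r ^ Q) (h2 : w ^ θ ≤ w ^ q) : w ^ θ ≤ r := by
  refine h2.trans ?_
  have hQ' : (Q : ℝ) ≠ 0 := by exact_mod_cast hQ
  refine le_of_pow_le_pow_left₀ hQ hr ?_
  calc (w ^ q) ^ Q = w ^ (q * Q) := by rw [Real.rpow_mul hw, Real.rpow_natCast]
    _ = w ^ (P : ℝ) := by rw [hq]; congr 1; field_simp
    _ = w ^ P := Real.rpow_natCast _ _
    _ ≤ r ^ Q := h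

theorem big {w r θ : ℝ} (P Q : ℕ) (hQ : Q ≠ 0) (hθ : θ ≤ P / Q) (hw : 1 ≤ w) (hr : 0 ≤ r)
    (h : w ^ P ≤ r ^ Q) : w ^ θ ≤ r :=
  rpow_le_of (by linarith) hr P Q hQ rfl h (Real.rpow_le_rpow_of_exponent_le hw hθ)

theorem small {w r θ : ℝ} (P Q : ℕ) (hQ : Q ≠ 0) (hθ : (P : ℝ) / Q ≤ θ) (hw : 0 < w) (hw1 : w ≤ 1)
    (hr : 0 ≤ r) (h : w ^ P ≤ r ^ Q) : w ^ θ ≤ r :=
  rpow_le_of hw.le hr P Q hQ rfl h (Real.rpow_le_rpow_of_exponent_ge hw hw1 hθ)

theorem theta_le {p : ℕ} (hp : p.Prime) (P Q : ℕ) (hQ : 0 < Q) (h : CC p ^ Q ≤ (p : ℝ) ^ P) :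
    theta p ≤ P / Q := by
  have hp1 : (1 : ℝ) < p := by exact_mod_cast hp.one_lt
  have hlog : 0 < Real.log p := Real.log_pos hp1
  have hQ' : (0 : ℝ) < Q := by exact_mod_cast hQ
  rw [theta, div_le_div_iff₀ hlog hQ']
  have := Real.log_le_log (pow_pos (CC_pos hp) Q) h
  rw [Real.log_pow, Real.log_pow, CC] at this
  linarith

theorem le_theta {p : ℕ} (hp : p.Prime) (P Q : ℕ) (hQ : 0 < Q) (h : (p : ℝ) ^ P ≤ CC p ^ Q) :
    (P : ℝ) / Q ≤ theta p := by
  have hp1 : (1 : ℝ) < p := by exact_mod_cast hp.one_lt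
  have hlog : 0 < Real.log p := Real.log_pos hp1
  have hQ' : (0 : ℝ) < Q := by exact_mod_cast hQ
  rw [theta, div_le_div_iff₀ hQ' hlog]
  have := Real.log_le_log (by positivity) h
  rw [Real.log_pow, Real.log_pow, CC] at this
  linarith

/-- The number with `k` digits equal to `h` in base `2 h + 1`. -/
def rep (p h : ℕ) : ℕ → ℕ
  | 0 => 0
  | k + 1 => h * p ^ k + rep p h k

theorem rep_eq {p h : ℕ} (hph : p = 2 * h + 1) (k : ℕ) : 2 * rep p h k + 1 = p ^ k := by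
  induction k with
  | zero => simp [rep]
  | succ k ih =>
    rw [rep, pow_succ]
    have : 2 * (h * p ^ k + rep p h k) + 1 = 2 * h * p ^ k + (2 * rep p h k + 1) := by ring
    have h3 : p ^ k * (2 * h + 1) = p ^ k * p := by rw [← hph]
    rw [this, ih, ← h3]
    ring

theorem cnt_rep {p h : ℕ} (hp : p.Prime) (hph : p = 2 * h + 1) (k : ℕ) :
    (cnt p (rep p h k) : ℝ) / CC p ^ k = (1 - (1 / (p : ℝ)) ^ k) / 4 := by
  have hpp : (p : ℝ) ≠ 0 := by exact_mod_cast hp.pos.ne'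
  have hC : CC p ≠ 0 := (CC_pos hp).ne'
  have hpr : (p : ℝ) = 2 * h + 1 := by exact_mod_cast hph
  induction k with
  | zero => simp [rep, cnt]
  | succ k ih =>
    have hle : rep p h k ≤ p ^ k := by have := rep_eq hph k; omega
    have hh : h < p := by omega
    rw [rep, cnt_real hp h k _ hle, cnt_small_real hp hh.le, row_small hp hh]
    have e : (CC p ^ k * ((h : ℝ) * (h + 1) / 2) + ((h + 1 : ℕ) : ℝ) * cnt p (rep p h k))
        / CC p ^ (k + 1) = ((h : ℝ) * (h + 1) / 2 + (h + 1) * ((cnt p (rep p h k) : ℝ) / CC p ^ k))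
          / CC p := by
      push_cast; rw [pow_succ]; field_simp
    have hh1 : (h : ℝ) + 1 ≠ 0 := by positivity
    have hC2 : CC p = (2 * h + 1) * (h + 1) := by rw [CC, hpr]; ring
    have h21 : (2 * (h : ℝ) + 1) ≠ 0 := by positivity
    rw [e, ih, hC2, pow_succ, hpr]
    generalize (1 / (2 * (h : ℝ) + 1)) ^ k = x
    field_simp
    ring

/-- The ratio tends to `(cnt A + row A / 4) / (A + 1/2)^θ` along `A p^k + (p^k-1)/2`. -/
theorem tendsto_sub {p h : ℕ} (hp : p.Prime) (hph : p = 2 * h + 1) (A : ℕ) :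
    Tendsto (fun k : ℕ => (cnt p (A * p ^ k + rep p h k) : ℝ) *
      ((A * p ^ k + rep p h k : ℕ) : ℝ) ^ (-theta p)) atTop
      (nhds ((cnt p A + row p A / 4) / ((A : ℝ) + 1 / 2) ^ theta p)) := by
  have hp0 : (0 : ℝ) < p := by exact_mod_cast hp.pos
  have hp1 : (1 : ℝ) < p := by exact_mod_cast hp.one_lt
  have hx : Tendsto (fun k : ℕ => (1 / (p : ℝ)) ^ k) atTop (nhds 0) := by
    refine tendsto_pow_atTop_nhds_zero_of_lt_one (by positivity) ?_
    rw [div_lt_one hp0]; exact hp1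
  have e : ∀ k : ℕ, (cnt p (A * p ^ k + rep p h k) : ℝ) *
      ((A * p ^ k + rep p h k : ℕ) : ℝ) ^ (-theta p)
      = (cnt p A + row p A * ((1 - (1 / (p : ℝ)) ^ k) / 4)) /
        ((A : ℝ) + (1 - (1 / (p : ℝ)) ^ k) / 2) ^ theta p := by
    intro k
    have hle : rep p h k ≤ p ^ k := by have := rep_eq hph k; omega
    have hCk : 0 < CC p ^ k := pow_pos (CC_pos hp) k
    have hpk : (0 : ℝ) < (p : ℝ) ^ k := by positivity
    have hr : (rep p h k : ℝ) = ((p : ℝ) ^ k - 1) / 2 := by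
      have h2 : (2 : ℝ) * rep p h k + 1 = (p : ℝ) ^ k := by exact_mod_cast rep_eq hph k
      linarith
    have e0 : ((A * p ^ k + rep p h k : ℕ) : ℝ) =
        (p : ℝ) ^ k * ((A : ℝ) + (1 - (1 / (p : ℝ)) ^ k) / 2) := by
      push_cast
      rw [hr, div_pow, one_pow]
      field_simp
    have e1 : (cnt p (A * p ^ k + rep p h k) : ℝ) =
        CC p ^ k * (cnt p A + row p A * ((1 - (1 / (p : ℝ)) ^ k) / 4)) := by
      rw [cnt_real hp A k _ hle, ← cnt_rep hp hph k]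
      field_simp
    have hnn : 0 ≤ ((A : ℝ) + (1 - (1 / (p : ℝ)) ^ k) / 2) := by
      have : (1 / (p : ℝ)) ^ k ≤ 1 := pow_le_one₀ (by positivity) (by rw [div_le_one hp0]; exact hp1.le)
      have : (0 : ℝ) ≤ A := by positivity
      linarith
    rw [e0, e1, Real.rpow_neg (by positivity), Real.mul_rpow hpk.le hnn, pow_theta hp,
      ← div_eq_mul_inv, mul_div_mul_left _ _ hCk.ne']
  simp_rw [e]
  have hb : (0 : ℝ) < (A : ℝ) + 1 / 2 := by positivity
  have h1 : Tendsto (fun k : ℕ => (A : ℝ) + (1 - (1 / (p : ℝ)) ^ k) / 2) atTop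
      (nhds ((A : ℝ) + 1 / 2)) := by
    have := ((hx.const_sub 1).div_const 2).const_add (A : ℝ)
    simpa using this
  have h2 : Tendsto (fun k : ℕ => (cnt p A : ℝ) + row p A * ((1 - (1 / (p : ℝ)) ^ k) / 4)) atTop
      (nhds (cnt p A + row p A / 4)) := by
    have := (((hx.const_sub 1).div_const 4).const_mul (row p A : ℝ)).const_add (cnt p A : ℝ)
    have e2 : (cnt p A : ℝ) + row p A * ((1 - 0) / 4) = cnt p A + row p A / 4 := by ring
    rw [e2] at this
    exact this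
  have h3 := h1.rpow_const (p := theta p) (Or.inl hb.ne')
  exact h2.div h3 (Real.rpow_pos_of_pos hb _).ne'

theorem liminf_eq {p : ℕ} (hp : p.Prime) (h : ℕ) (hph : p = 2 * h + 1) (A : ℕ) (hA : 1 ≤ A) (L : ℝ)
    (hL : (cnt p A + row p A / 4) / ((A : ℝ) + 1 / 2) ^ theta p = L)
    (hlow : ∀ n : ℕ, 1 ≤ n → L ≤ (cnt p n : ℝ) * (n : ℝ) ^ (-theta p)) :
    liminf (fun n : ℕ => (cnt p n : ℝ) * (n : ℝ) ^ (-theta p)) atTop = L := by
  set u : ℕ → ℝ := fun n => (cnt p n : ℝ) * (n : ℝ) ^ (-theta p) with hu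
  have hev : ∀ᶠ n in atTop, L ≤ u n := by
    filter_upwards [eventually_ge_atTop 1] with n hn using hlow n hn
  have hsub := tendsto_sub hp hph A
  rw [hL] at hsub
  have htop : Tendsto (fun k : ℕ => A * p ^ k + rep p h k) atTop atTop := by
    refine tendsto_atTop_mono (fun k => ?_) (tendsto_pow_atTop_atTop_of_one_lt hp.one_lt)
    nlinarith [pow_pos hp.pos k]
  have hbdd : IsBoundedUnder (· ≥ ·) atTop u := ⟨L, by simpa using hev⟩
  have hfreq : ∀ b, L < b → ∃ᶠ n in atTop, u n ≤ b := by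
    intro b hb
    have h1 : ∀ᶠ k in atTop, u (A * p ^ k + rep p h k) < b := hsub.eventually (gt_mem_nhds hb)
    exact htop.frequently (h1.mono fun _ hk => hk.le).frequently
  have hcob : IsCoboundedUnder (· ≥ ·) atTop u := by
    refine ⟨L + 1, fun a ha => ?_⟩
    have ha' : ∀ᶠ n in atTop, a ≤ u n := by simpa using ha
    obtain ⟨n, hn1, hn2⟩ := ((hfreq (L + 1) (by linarith)).and_eventually ha').exists
    exact hn2.trans hn1
  apply le_antisymm
  · refine le_of_forall_gt_imp_ge_of_dense (fun b hb => ?_)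
    exact liminf_le_of_frequently_le (hfreq b hb) hbdd
  · exact le_liminf_of_le hcob hev

end

end Pool.Agent.R308.Pascal
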