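import Pool.Agent.W612.RS.Mq1
import Pool.Agent.W410.RS.MQ2
import Pool.Agent.TH942.FG

set_option autoImplicit false

/-!
# QM-FIN: the points of `y² = x³ - 35 D² x - 98 D³` over a multiquadratic extension
-/

namespace Pool.Agent.R308.QMFin

open Pool.Agent.W307.RS (ShK)
open Pool.Agent.W612.RS (mq1)
open Pool.Agent.W410.RS (rk rk_eq gen)

/-- the points of the twist `y² = x³ - 35 D² x - 98 D³` -/
abbrev Pt (k : Type) [Field k] (D : k) : Type :=
  ({ a₁ := 0, a₂ := 0, a₃ := 0, a₄ := -35 * D ^ 2, a₆ := -98 * D ^ 3 } :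
    WeierstrassCurve k).toAffine.Point

theorem fin_of_rank {A : Type} [AddCommGroup A] (hA : AddGroup.FG A)
    (h : Module.rank ℤ A = 0) : Finite A := by
  have hfin : Module.Finite ℤ A := Module.Finite.iff_addGroup_fg.2 hA
  apply Module.finite_of_fg_torsion
  intro P
  obtain ⟨a, ha, hP⟩ := rank_eq_zero_iff.1 h P
  exact ⟨⟨a, mem_nonZeroDivisors_of_ne_zero ha⟩, hP⟩

theorem rank_of_fin {A : Type} [AddCommGroup A] (hA : Finite A) : Module.rank ℤ A = 0 := by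
  rw [rank_eq_zero_iff]
  intro P
  refine ⟨(Nat.card A : ℤ), by exact_mod_cast Nat.card_pos.ne', ?_⟩
  rw [natCast_zsmul]
  exact card_nsmul_eq_zero'

theorem fin_twists (k L : Type) [Field k] [NumberField k] [Field L] [NumberField L] [Algebra k L]
    (n : ℕ) (d : Fin n → k) (x : Fin n → L) (hd : ∀ i, d i ≠ 0)
    (hx : ∀ i, x i ^ 2 = algebraMap k L (d i))
    (htop : IntermediateField.adjoin k (Set.range x) = ⊤)
    (D : k) (hD : D ≠ 0) (hfin : ∀ T : Finset (Fin n), Finite (Pt k (D * ∏ i ∈ T, d i))) :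
    Finite (Pt L (algebraMap k L D)) := by
  classical
  have hAB : 4 * (-35 * D ^ 2) ^ 3 + 27 * (-98 * D ^ 3) ^ 2 ≠ (0 : k) := by
    have h : 4 * (-35 * D ^ 2) ^ 3 + 27 * (-98 * D ^ 3) ^ 2 = 87808 * D ^ 6 := by ring
    rw [h]
    exact mul_ne_zero (by norm_num) (pow_ne_zero 6 hD)
  have h1 := gen mq1 (Finset.univ : Finset (Fin n)) k L x d (fun i _ => hx i) (fun i _ => hd i)
    (by rw [Finset.coe_univ, Set.image_univ]; exact htop) (-35 * D ^ 2) (-98 * D ^ 3) hAB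
  have h2 : ∀ T ∈ (Finset.univ : Finset (Fin n)).powerset,
      rk ((∏ i ∈ T, d i) ^ 2 * (-35 * D ^ 2)) ((∏ i ∈ T, d i) ^ 3 * (-98 * D ^ 3)) = 0 := by
    intro T _
    have e1 : (∏ i ∈ T, d i) ^ 2 * (-35 * D ^ 2) = -35 * (D * ∏ i ∈ T, d i) ^ 2 := by ring
    have e2 : (∏ i ∈ T, d i) ^ 3 * (-98 * D ^ 3) = -98 * (D * ∏ i ∈ T, d i) ^ 3 := by ring
    rw [e1, e2, rk_eq]
    exact rank_of_fin (hfin T)
  rw [Finset.sum_eq_zero h2] at h1
  have h3 : rk (algebraMap k L (-35 * D ^ 2)) (algebraMap k L (-98 * D ^ 3)) = 0 :=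
    le_antisymm h1 zero_le
  have e1 : algebraMap k L (-35 * D ^ 2) = -35 * (algebraMap k L D) ^ 2 := by
    rw [map_mul, map_pow, map_neg, map_ofNat]
  have e2 : algebraMap k L (-98 * D ^ 3) = -98 * (algebraMap k L D) ^ 3 := by
    rw [map_mul, map_pow, map_neg, map_ofNat]
  rw [e1, e2, rk_eq] at h3
  have hD' : algebraMap k L D ≠ 0 := (map_ne_zero _).2 hD
  have hAB' : 4 * (-35 * (algebraMap k L D) ^ 2) ^ 3 + 27 * (-98 * (algebraMap k L D) ^ 3) ^ 2 ≠
      (0 : L) := by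
    have h : 4 * (-35 * (algebraMap k L D) ^ 2) ^ 3 + 27 * (-98 * (algebraMap k L D) ^ 3) ^ 2
      = 87808 * (algebraMap k L D) ^ 6 := by ring
    rw [h]
    exact mul_ne_zero (by norm_num) (pow_ne_zero 6 hD')
  exact fin_of_rank (Pool.Agent.TH942.sfg hAB') h3

end Pool.Agent.R308.QMFin
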